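import Mathlib

/-!
# DSV: subfamilies of hyperplanes with distinct simplex volumes (MP_5afd6b_co, helper91): definitions

Points of `ℝ^d` are functions `Fin d → ℝ`, with Lebesgue measure `volume`.  `D d n` is the function
`D_d(n)` of the problem.

Auxiliary notions: a vector `h : Fin (d + 1) → ℝ` stands for the hyperplane `∑ j, h (j + 1) x j = h 0`;
for `d + 1` such vectors, the rows of a square matrix `M`, `dl M i` is the determinant of the normal
vectors with the `i`-th one left out and `vr M = |det M| ^ d / ∏ i, |dl M i|`.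
-/

namespace Pool.Agent.DSV

open MeasureTheory

/-- `X` is a hyperplane of `ℝ^d` -/
def IsHyper {d : ℕ} (X : Set (Fin d → ℝ)) : Prop :=
  ∃ (a : Fin d → ℝ) (b : ℝ), a ≠ 0 ∧ X = {x | ∑ j, a j * x j = b}

/-- a family of `n` hyperplanes of `ℝ^d` in general position: any `d` of them meet in exactly one
point and no `d + 1` of them have a common point -/
def GenPos {d n : ℕ} (H : Fin n → Set (Fin d → ℝ)) : Prop :=
  (∀ i, IsHyper (H i)) ∧
  (∀ T : Finset (Fin n), T.card = d → ∃! x, ∀ i ∈ T, x ∈ H i) ∧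
  (∀ T : Finset (Fin n), T.card = d + 1 → ¬ ∃ x, ∀ i ∈ T, x ∈ H i)

/-- the simplex defined by the `d + 1` hyperplanes `H i`, `i ∈ T`: the convex hull of its vertices,
a vertex being a point that lies on all of the hyperplanes but one -/
def simplex {d n : ℕ} (H : Fin n → Set (Fin d → ℝ)) (T : Finset (Fin n)) : Set (Fin d → ℝ) :=
  convexHull ℝ {x | ∃ j ∈ T, ∀ i ∈ T, i ≠ j → x ∈ H i}

/-- the subfamily `S` has distinct volumes -/
def DistinctVol {d n : ℕ} (H : Fin n → Set (Fin d → ℝ)) (S : Finset (Fin n)) : Prop :=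
  ∀ A B : Finset (Fin n), A ⊆ S → B ⊆ S → A.card = d + 1 → B.card = d + 1 →
    volume (simplex H A) = volume (simplex H B) → A = B

/-- the function `D_d(n)` of the problem -/
noncomputable def D (d n : ℕ) : ℕ :=
  sSup {k | ∀ H : Fin n → Set (Fin d → ℝ), GenPos H →
    ∃ S : Finset (Fin n), S.card = k ∧ DistinctVol H S}

/-- the hyperplane with the coefficient vector `h` -/
def Hyp {d : ℕ} (h : Fin (d + 1) → ℝ) : Set (Fin d → ℝ) := {x | ∑ j, h (Fin.succ j) * x j = h 0}

/-- the determinant of the normal vectors of the rows other than `i` -/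
noncomputable def dl {d : ℕ} (M : Matrix (Fin (d + 1)) (Fin (d + 1)) ℝ) (i : Fin (d + 1)) : ℝ :=
  (M.submatrix i.succAbove Fin.succ).det

/-- `|det M| ^ d / ∏ i, |dl M i|` -/
noncomputable def vr {d : ℕ} (M : Matrix (Fin (d + 1)) (Fin (d + 1)) ℝ) : ℝ :=
  |M.det| ^ d / ∏ i, |dl M i|

/-- the volume of the standard simplex -/
noncomputable def kap (d : ℕ) : ENNReal :=
  volume (convexHull ℝ (insert (0 : Fin d → ℝ) (Set.range fun i : Fin d => Pi.single i (1 : ℝ))))

/-- the matrix of the rows `p (t i)` -/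
def Mt {ι : Type*} {d : ℕ} (p : ι → Fin (d + 1) → ℝ) (t : Fin (d + 1) → ι) :
    Matrix (Fin (d + 1)) (Fin (d + 1)) ℝ := Matrix.of fun i => p (t i)

/-- general position, for coefficient vectors -/
def Good {ι : Type*} {d : ℕ} (p : ι → Fin (d + 1) → ℝ) : Prop :=
  (∀ t : Fin (d + 1) → ι, Function.Injective t → (Mt p t).det ≠ 0) ∧
  (∀ t : Fin d → ι, Function.Injective t →
    (Matrix.of fun i j : Fin d => p (t i) (Fin.succ j)).det ≠ 0)

/-- `Q` is robust for the set `W` of functions: each of them vanishes on all of `Q` or on at most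
`ε |Q|` elements of `Q` -/
def Rob {ι : Type*} (W : Set (ι → ℝ)) (Q : Finset ι) (ε : ℝ) : Prop :=
  ∀ g ∈ W, (∀ q ∈ Q, g q = 0) ∨ ((Q.filter fun q => g q = 0).card : ℝ) ≤ ε * Q.card

/-- the space of functions on the index set spanned by the coordinates of the vectors `p i` -/
def Vs {ι : Type*} {d : ℕ} (p : ι → Fin (d + 1) → ℝ) : Submodule ℝ (ι → ℝ) :=
  Submodule.span ℝ (Set.range fun j : Fin (d + 1) => fun i => p i j)

/-- the polynomial `det(A) ^ d * ∏ dl(B) - s * det(B) ^ d * ∏ dl(A)` whose zeros (for `s = 1` or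
`s = -1`) describe equal volumes -/
noncomputable def Fs {d : ℕ} (s : ℝ) (A B : Matrix (Fin (d + 1)) (Fin (d + 1)) ℝ) : ℝ :=
  A.det ^ d * ∏ i, dl B i - s * (B.det ^ d * ∏ i, dl A i)

end Pool.Agent.DSV
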