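import Pool.Agent.DSV.HfA

/-!
# DSV, module DegP: the functions involved are polynomials of bounded degree in each variable

PROOF.  `det_mem`: as a function of the row `x j` (`t` may hit `j` at most once since it is injective) the
determinant is linear: if `t i = j`, expand along the row `i` (`Matrix.det_succ_row`): the entries are the functions
`q ↦ p q k` of `Vs p`, the cofactors do not depend on `q`; if `j` is not in the range of `t` the determinant is constant,
and the constants are in `Vs p` as `1 ∈ Vs p`.  `dl_mem`: the same for `dl (Mt p (update x j q ∘ t)) i`, a determinant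
of the rows `t (i.succAbove ·)`, columns `succ`.  `pow_mem`, `prod_mem`: products of `d` elements of `V` are in `V ^ d`,
products of `d + 1` factors of which one is constant also: in `∏ i, dl (Mt p (update x j q ∘ t)) i` the factor `i` with
`t i = j` does not contain the row `j` and is constant; so the product is in `Vs p ^ d` (if `j` is not in the range of
`t`, everything is constant and `Vs p ^ 0 ≤ Vs p ^ d` as `1 ∈ Vs p`).  `Fs_mem`: `det ^ d ∈ Vs p ^ d`, `∏ dl ∈ Vs p ^ d`, so
the products are in `Vs p ^ (2 * d)` (`Submodule.mul_mem_mul`, `pow_add`).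
-/

namespace Pool.Agent.DSV

variable {n d : ℕ} {κ : Type*} [DecidableEq κ]

theorem one_mem_Vs {p : Fin n → Fin (d + 1) → ℝ} {u : Fin (d + 1) → ℝ}
    (hu : ∀ i, ∑ j, u j * p i j = 1) : (1 : Fin n → ℝ) ∈ Vs p := by
  have h : (1 : Fin n → ℝ) = ∑ j, u j • (fun i => p i j) := by
    funext i
    rw [Finset.sum_apply]
    simp only [Pi.one_apply, Pi.smul_apply, smul_eq_mul]
    exact (hu i).symm
  rw [h]
  exact Submodule.sum_mem _ fun j _ => Submodule.smul_mem _ _ (Submodule.subset_span ⟨j, rfl⟩)

theorem const_mem {p : Fin n → Fin (d + 1) → ℝ} {u : Fin (d + 1) → ℝ}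
    (hu : ∀ i, ∑ j, u j * p i j = 1) (m : ℕ) (c : ℝ) : (fun _ : Fin n => c) ∈ Vs p ^ m := by
  have h1 := Submodule.pow_mem_pow (Vs p) (one_mem_Vs hu) m
  rw [one_pow] at h1
  have h2 : (fun _ : Fin n => c) = c • (1 : Fin n → ℝ) := by
    funext i
    simp
  rw [h2]
  exact Submodule.smul_mem _ _ h1

/-- a determinant as a function of one of its rows -/
private theorem det_fun_mem {m : Type*} [Fintype m] [DecidableEq m] {p : Fin n → Fin (d + 1) → ℝ}
    (A : Fin n → Matrix m m ℝ) (i0 : m) (c : m → Fin (d + 1)) (A0 : Matrix m m ℝ)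
    (h0 : ∀ q l, A q i0 l = p q (c l)) (h1 : ∀ q i, i ≠ i0 → A q i = A0 i) :
    (fun q => (A q).det) ∈ Vs p := by
  have h : (fun q => (A q).det) =
      ∑ l, (A0.updateRow i0 (Pi.single l 1)).det • (fun q => p q (c l)) := by
    funext q
    rw [Finset.sum_apply, Matrix.det_eq_sum_mul_adjugate_row (A q) i0]
    refine Finset.sum_congr rfl fun l _ => ?_
    have h2 : (A q).updateRow i0 (Pi.single l 1) = A0.updateRow i0 (Pi.single l 1) := by
      ext i k
      by_cases hi : i = i0
      · subst hi
        simp
      · rw [Matrix.updateRow_ne hi, Matrix.updateRow_ne hi, h1 q i hi]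
    rw [Matrix.adjugate_apply, h2, h0, Pi.smul_apply, smul_eq_mul, mul_comm]
  rw [h]
  exact Submodule.sum_mem _ fun j _ => Submodule.smul_mem _ _ (Submodule.subset_span ⟨c j, rfl⟩)

private theorem prod_mem' {p : Fin n → Fin (d + 1) → ℝ} {ι : Type*} (s : Finset ι)
    (f : ι → Fin n → ℝ) (hf : ∀ i ∈ s, f i ∈ Vs p) : ∏ i ∈ s, f i ∈ Vs p ^ s.card := by
  classical
  induction s using Finset.induction_on with
  | empty =>
    rw [Finset.prod_empty, Finset.card_empty, pow_zero]
    exact Submodule.one_le.mp le_rfl
  | insert a s ha ih =>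
    rw [Finset.prod_insert ha, Finset.card_insert_of_notMem ha, pow_succ']
    exact Submodule.mul_mem_mul (hf a (Finset.mem_insert_self a s))
      (ih fun i hi => hf i (Finset.mem_insert_of_mem hi))

theorem det_pow_mem {p : Fin n → Fin (d + 1) → ℝ} {u : Fin (d + 1) → ℝ}
    (hu : ∀ i, ∑ j, u j * p i j = 1) (x : κ → Fin n) (t : Fin (d + 1) → κ)
    (ht : Function.Injective t) (j : κ) :
    (fun q => (Mt p fun i => Function.update x j q (t i)).det ^ d) ∈ Vs p ^ d := by
  by_cases hj : ∃ i0, t i0 = j
  · obtain ⟨i0, rfl⟩ := hj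
    have h : (fun q => (Mt p fun i => Function.update x (t i0) q (t i)).det) ∈ Vs p := by
      refine det_fun_mem _ i0 id (Mt p fun i => x (t i)) ?_ ?_
      · intro q l
        simp [Mt]
      · intro q i hi
        have : t i ≠ t i0 := fun h => hi (ht h)
        funext k
        simp [Mt, Function.update_of_ne this]
    exact Submodule.pow_mem_pow (Vs p) h d
  · push Not at hj
    have h : (fun q => (Mt p fun i => Function.update x j q (t i)).det ^ d) =
        fun _ : Fin n => (Mt p fun i => x (t i)).det ^ d := by
      funext q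
      have : (fun i => Function.update x j q (t i)) = fun i => x (t i) := by
        funext i
        rw [Function.update_of_ne (hj i)]
      rw [this]
    rw [h]
    exact const_mem hu d _

theorem dl_prod_mem {p : Fin n → Fin (d + 1) → ℝ} {u : Fin (d + 1) → ℝ}
    (hu : ∀ i, ∑ j, u j * p i j = 1) (x : κ → Fin n) (t : Fin (d + 1) → κ)
    (ht : Function.Injective t) (j : κ) :
    (fun q => ∏ k, dl (Mt p fun i => Function.update x j q (t i)) k) ∈ Vs p ^ d := by
  by_cases hj : ∃ i0, t i0 = j
  · obtain ⟨i0, rfl⟩ := hj
    have hdl : ∀ l : Fin d, (fun q => dl (Mt p fun i => Function.update x (t i0) q (t i))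
        (i0.succAbove l)) ∈ Vs p := by
      intro l
      obtain ⟨l0, hl0⟩ := Fin.exists_succAbove_eq (Fin.succAbove_ne i0 l).symm
      unfold dl
      refine det_fun_mem _ l0 Fin.succ
        ((Mt p fun i => x (t i)).submatrix (i0.succAbove l).succAbove Fin.succ) ?_ ?_
      · intro q l'
        simp [Mt, hl0]
      · intro q i hi
        have : t ((i0.succAbove l).succAbove i) ≠ t i0 := by
          intro h
          apply hi
          exact Fin.succAbove_right_injective ((ht h).trans hl0.symm)
        funext k
        simp [Mt, Function.update_of_ne this]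
    have hc : ∀ q, dl (Mt p fun i => Function.update x (t i0) q (t i)) i0 =
        dl (Mt p fun i => x (t i)) i0 := by
      intro q
      unfold dl
      congr 1
      ext i k
      have : t (i0.succAbove i) ≠ t i0 := fun h => Fin.succAbove_ne i0 i (ht h)
      simp [Mt, Function.update_of_ne this]
    have h : (fun q => ∏ k, dl (Mt p fun i => Function.update x (t i0) q (t i)) k) =
        dl (Mt p fun i => x (t i)) i0 • ∏ l : Fin d, fun q =>
          dl (Mt p fun i => Function.update x (t i0) q (t i)) (i0.succAbove l) := by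
      funext q
      rw [Fin.prod_univ_succAbove _ i0, hc, Pi.smul_apply, smul_eq_mul, Finset.prod_apply]
    rw [h]
    refine Submodule.smul_mem _ _ ?_
    have := prod_mem' (p := p) (Finset.univ : Finset (Fin d))
      (fun l q => dl (Mt p fun i => Function.update x (t i0) q (t i)) (i0.succAbove l))
      (fun l _ => hdl l)
    rwa [Finset.card_univ, Fintype.card_fin] at this
  · push Not at hj
    have h : (fun q => ∏ k, dl (Mt p fun i => Function.update x j q (t i)) k) =
        fun _ : Fin n => ∏ k, dl (Mt p fun i => x (t i)) k := by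
      funext q
      have : (fun i => Function.update x j q (t i)) = fun i => x (t i) := by
        funext i
        rw [Function.update_of_ne (hj i)]
      rw [this]
    rw [h]
    exact const_mem hu d _

theorem Fs_mem {p : Fin n → Fin (d + 1) → ℝ} {u : Fin (d + 1) → ℝ}
    (hu : ∀ i, ∑ j, u j * p i j = 1) (s : ℝ) (x : κ → Fin n) (a b : Fin (d + 1) → κ)
    (ha : Function.Injective a) (hb : Function.Injective b) (j : κ) :
    (fun q => Fs s (Mt p fun i => Function.update x j q (a i))
      (Mt p fun i => Function.update x j q (b i))) ∈ Vs p ^ (2 * d) := by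
  have h1 := Submodule.mul_mem_mul (det_pow_mem hu x a ha j) (dl_prod_mem hu x b hb j)
  have h2 := Submodule.mul_mem_mul (det_pow_mem hu x b hb j) (dl_prod_mem hu x a ha j)
  rw [← pow_add, ← two_mul] at h1 h2
  have h3 := Submodule.sub_mem _ h1 (Submodule.smul_mem _ s h2)
  exact h3

end Pool.Agent.DSV
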