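import Pool.Agent.DSV.Sim
import Pool.Agent.DSV.DegP

/-!
# DSV, module NonB: the volumes of a robust family are not all equal

PROOF.  Let `d ≥ 2`.  Suppose all injective tuples `t` with values in `Q` have `vr (Mt p t) = v` (`v > 0` by `vr_pos`), so
`|det| ^ d = v * ∏ |dl|`.  Choose distinct elements `z i ∈ Q` (`0 ≤ i ≤ d`), let `Q' = Q` minus these, and for `x, y : Fin n`
let `T x y : Fin (d + 1) → Fin n` be the tuple with `T x y 0 = x`, `T x y 1 = y`, `T x y i = z i` for `i ≥ 2`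
(`Function.update (Function.update z 0 x) 1 y`).  Put `A x y = det (Mt p (T x y)) ^ d`, `B x y = v * ∏ i, dl (Mt p (T x y)) i`,
`C x y = A x y + B x y`.
1. For `x ≠ y` in `Q'`: `|A x y| = |B x y| ≠ 0`; `A y x = (-1) ^ d * A x y` (two rows exchanged, `Matrix.det_permute`);
   `B y x = (-1) ^ (d + 1) * B x y` (`prod_dl_perm`).
   So exactly one of `C x y`, `C y x` is zero.
2. For fixed `x`, the function `y ↦ C x y` is in `Vs p ^ d ≤ Vs p ^ (2 d)` (`det_pow_mem`, `dl_prod_mem` with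
   `κ = Fin (d + 1)`, `t = id`), so it vanishes on all of `Q` or on at most `ε |Q| ≤ |Q| / 8` elements of `Q`.
3. At most one `x ∈ Q'` has `C x · = 0` on all of `Q` (two such `x, y` would give `C x y = C y x = 0`).  So the number of
   pairs `(x, y) ∈ Q' × Q'`, `x ≠ y`, with `C x y = 0` is at most `|Q'| + |Q'| |Q| / 8`; but it is at least
   `|Q'| (|Q'| - 1) / 2`.  So `|Q'| - 1 ≤ 2 + |Q| / 4`, which is false as
   `|Q'| = |Q| - (d + 1)` and `|Q| ≥ 10 (d + 1)`.
-/

namespace Pool.Agent.DSV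

/-- the cofactor of the entry `(i, 0)` is `± dl M i` -/
private lemma cof {d : ℕ} (M : Matrix (Fin (d + 1)) (Fin (d + 1)) ℝ) (i : Fin (d + 1)) :
    (M.updateCol 0 (Pi.single i 1)).det = (-1) ^ (i : ℕ) * dl M i := by
  rw [Matrix.det_succ_column_zero, Finset.sum_eq_single i]
  · rw [Matrix.updateCol_self, Pi.single_eq_same, mul_one]
    congr 2
  · intro j _ hj
    rw [Matrix.updateCol_self, Pi.single_eq_of_ne hj]
    ring
  · intro h
    exact absurd (Finset.mem_univ i) h

private lemma dl_perm {d : ℕ} (M : Matrix (Fin (d + 1)) (Fin (d + 1)) ℝ)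
    (σ : Equiv.Perm (Fin (d + 1))) (i : Fin (d + 1)) :
    (-1 : ℝ) ^ (i : ℕ) * dl (M.submatrix σ id) i =
      (Equiv.Perm.sign σ : ℝ) * ((-1) ^ ((σ i : Fin (d + 1)) : ℕ) * dl M (σ i)) := by
  rw [← cof, ← cof]
  have h : (M.submatrix σ id).updateCol 0 (Pi.single i 1) =
      (M.updateCol 0 (Pi.single (σ i) 1)).submatrix σ id := by
    ext a b
    simp only [Matrix.updateCol_apply, Matrix.submatrix_apply, id]
    by_cases hb : b = 0
    · rw [if_pos hb, if_pos hb]
      by_cases ha : a = i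
      · subst ha; simp
      · rw [Pi.single_eq_of_ne ha, Pi.single_eq_of_ne (fun h => ha (σ.injective h))]
    · rw [if_neg hb, if_neg hb]
  rw [h, Matrix.det_permute]

private lemma prod_dl_perm {d : ℕ} (M : Matrix (Fin (d + 1)) (Fin (d + 1)) ℝ)
    (σ : Equiv.Perm (Fin (d + 1))) :
    ∏ i, dl (M.submatrix σ id) i = (Equiv.Perm.sign σ : ℝ) ^ (d + 1) * ∏ i, dl M i := by
  have h1 : ∏ i : Fin (d + 1), ((-1 : ℝ) ^ (i : ℕ) * dl (M.submatrix σ id) i) =
      ∏ i : Fin (d + 1), ((Equiv.Perm.sign σ : ℝ) * ((-1) ^ ((σ i : Fin (d + 1)) : ℕ) * dl M (σ i))) :=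
    Finset.prod_congr rfl fun i _ => dl_perm M σ i
  rw [Finset.prod_mul_distrib, Finset.prod_mul_distrib, Finset.prod_const, Finset.card_univ,
    Fintype.card_fin] at h1
  have h2 : ∏ i : Fin (d + 1), ((-1 : ℝ) ^ ((σ i : Fin (d + 1)) : ℕ) * dl M (σ i)) =
      ∏ i : Fin (d + 1), ((-1 : ℝ) ^ (i : ℕ) * dl M i) :=
    Equiv.prod_comp σ (fun i => (-1 : ℝ) ^ (i : ℕ) * dl M i)
  rw [h2, Finset.prod_mul_distrib] at h1
  have h3 : (∏ i : Fin (d + 1), (-1 : ℝ) ^ (i : ℕ)) ≠ 0 :=
    Finset.prod_ne_zero_iff.2 fun i _ => pow_ne_zero _ (by norm_num)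
  have h4 : (∏ i : Fin (d + 1), (-1 : ℝ) ^ (i : ℕ)) * ∏ i, dl (M.submatrix σ id) i =
      (∏ i : Fin (d + 1), (-1 : ℝ) ^ (i : ℕ)) * ((Equiv.Perm.sign σ : ℝ) ^ (d + 1) * ∏ i, dl M i) := by
    rw [h1]; ring
  exact mul_left_cancel₀ h3 h4

private def T {n d : ℕ} (z : Fin (d + 1) → Fin n) (x y : Fin n) : Fin (d + 1) → Fin n :=
  Function.update (Function.update z 0 x) 1 y

private lemma zero_ne_one' {d : ℕ} (hd : 2 ≤ d) : (0 : Fin (d + 1)) ≠ 1 := by
  intro h
  have h1 := congrArg Fin.val h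
  have h2 : ((1 : Fin (d + 1)) : ℕ) = 1 := by
    rw [Fin.val_one']
    exact Nat.mod_eq_of_lt (by omega)
  rw [h2] at h1
  simp at h1

private lemma T_inj {n d : ℕ} {z : Fin (d + 1) → Fin n} (hz : Function.Injective z)
    {x y : Fin n} (hx : ∀ i, z i ≠ x) (hy : ∀ i, z i ≠ y) (hxy : x ≠ y) :
    Function.Injective (T z x y) := by
  intro i j h
  simp only [T, Function.update_apply] at h
  split_ifs at h with h1 h2 h3 h4 h5 h6 h7 h8
  · rw [h1, h2]
  · exact absurd h.symm hxy
  · exact absurd h.symm (hy j)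
  · exact absurd h hxy
  · rw [h4, h6]
  · exact absurd h.symm (hx j)
  · exact absurd h (hy i)
  · exact absurd h (hx i)
  · exact hz h

private lemma T_mem {n d : ℕ} {z : Fin (d + 1) → Fin n} {Q : Finset (Fin n)}
    (hz : ∀ i, z i ∈ Q) {x y : Fin n} (hx : x ∈ Q) (hy : y ∈ Q) (i : Fin (d + 1)) :
    T z x y i ∈ Q := by
  simp only [T, Function.update_apply]
  split_ifs
  · exact hy
  · exact hx
  · exact hz i

private lemma T_swap {n d : ℕ} (hd : 2 ≤ d) (z : Fin (d + 1) → Fin n) (x y : Fin n)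
    (i : Fin (d + 1)) : T z y x i = T z x y (Equiv.swap 0 1 i) := by
  have h01 := zero_ne_one' hd
  simp only [T, Function.update_apply]
  by_cases h0 : i = 0
  · subst h0
    rw [Equiv.swap_apply_left, if_neg h01, if_pos rfl, if_pos rfl]
  · by_cases h1 : i = 1
    · subst h1
      rw [Equiv.swap_apply_right, if_pos rfl, if_neg h01, if_pos rfl]
    · rw [Equiv.swap_apply_of_ne_of_ne h0 h1, if_neg h1, if_neg h0, if_neg h1, if_neg h0]

private lemma Mt_swap {n d : ℕ} (hd : 2 ≤ d) (p : Fin n → Fin (d + 1) → ℝ)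
    (z : Fin (d + 1) → Fin n) (x y : Fin n) :
    Mt p (T z y x) = (Mt p (T z x y)).submatrix (Equiv.swap 0 1 : Equiv.Perm (Fin (d + 1))) id := by
  ext i j
  simp only [Mt, Matrix.of_apply, Matrix.submatrix_apply, id]
  rw [T_swap hd]

/-- counting: if at least one of `R x y`, `R y x` holds for all `x ≠ y` and `R x` holds for at most
`M` elements, with at most one exception `x`, then the set is small -/
private lemma count {α : Type*} [DecidableEq α] (P : Finset α) (R : α → α → Prop)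
    [∀ x, DecidablePred (R x)] (S : α → Prop) (M : ℝ)
    (h1 : ∀ x ∈ P, ∀ y ∈ P, x ≠ y → R x y ∨ R y x)
    (h2 : ∀ x ∈ P, ¬ S x → ((P.filter fun y => R x y).card : ℝ) ≤ M)
    (h3 : ∀ x ∈ P, ∀ y ∈ P, S x → S y → x = y) (hM : 0 ≤ M) :
    (P.card : ℝ) ≤ 2 * M + 3 := by
  classical
  set g : α → α → ℝ := fun x y => if x ≠ y ∧ R x y then 1 else 0 with hg
  have hg0 : ∀ x y, 0 ≤ g x y := by
    intro x y
    simp only [hg]
    split_ifs <;> norm_num
  have hlow : ∑ x ∈ P, ∑ y ∈ P, (if x ≠ y then (1 : ℝ) else 0) ≤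
      ∑ x ∈ P, ∑ y ∈ P, (g x y + g y x) := by
    refine Finset.sum_le_sum fun x hx => Finset.sum_le_sum fun y hy => ?_
    by_cases hxy : x = y
    · rw [if_neg (not_not.2 hxy)]
      exact add_nonneg (hg0 _ _) (hg0 _ _)
    · rw [if_pos hxy]
      rcases h1 x hx y hy hxy with h | h
      · have : g x y = 1 := by simp only [hg]; rw [if_pos ⟨hxy, h⟩]
        rw [this]
        linarith [hg0 y x]
      · have : g y x = 1 := by simp only [hg]; rw [if_pos ⟨Ne.symm hxy, h⟩]
        rw [this]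
        linarith [hg0 x y]
  have hsym : ∑ x ∈ P, ∑ y ∈ P, g y x = ∑ x ∈ P, ∑ y ∈ P, g x y := Finset.sum_comm
  have hleft : ∑ x ∈ P, ∑ y ∈ P, (if x ≠ y then (1 : ℝ) else 0) = P.card * (P.card - 1) := by
    have : ∀ x ∈ P, ∑ y ∈ P, (if x ≠ y then (1 : ℝ) else 0) = (P.card : ℝ) - 1 := by
      intro x hx
      have h5 : ∀ y ∈ P, (if x ≠ y then (1 : ℝ) else 0) = 1 - (if y = x then 1 else 0) := by
        intro y _
        by_cases hxy : x = y
        · rw [if_neg (not_not.2 hxy), if_pos hxy.symm]; ring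
        · rw [if_pos hxy, if_neg (fun h => hxy h.symm)]; ring
      rw [Finset.sum_congr rfl h5, Finset.sum_sub_distrib, Finset.sum_ite_eq' P x, if_pos hx]
      simp
    rw [Finset.sum_congr rfl this, Finset.sum_const, nsmul_eq_mul]
  have hup : ∑ x ∈ P, ∑ y ∈ P, g x y ≤ P.card * M + P.card := by
    have hrow : ∀ x ∈ P, ∑ y ∈ P, g x y ≤ M + (if S x then (P.card : ℝ) else 0) := by
      intro x hx
      have h6 : ∑ y ∈ P, g x y ≤ ((P.filter fun y => R x y).card : ℝ) := by
        rw [Finset.card_filter, Nat.cast_sum]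
        refine Finset.sum_le_sum fun y _ => ?_
        simp only [hg]
        by_cases h : R x y
        · rw [if_pos h]
          split_ifs <;> norm_num
        · rw [if_neg (fun h' => h h'.2), if_neg h]
          norm_num
      by_cases hS : S x
      · rw [if_pos hS]
        have h7 : ((P.filter fun y => R x y).card : ℝ) ≤ P.card := by
          exact_mod_cast Finset.card_filter_le _ _
        linarith
      · rw [if_neg hS]
        have := h2 x hx hS
        linarith
    have hS1 : ∑ x ∈ P, (if S x then (P.card : ℝ) else 0) ≤ P.card := by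
      rw [← Finset.sum_filter, Finset.sum_const, nsmul_eq_mul]
      have h8 : (P.filter fun x => S x).card ≤ 1 := by
        rw [Finset.card_le_one]
        intro a ha b hb
        rw [Finset.mem_filter] at ha hb
        exact h3 a ha.1 b hb.1 ha.2 hb.2
      have h9 : ((P.filter fun x => S x).card : ℝ) ≤ 1 := by exact_mod_cast h8
      calc ((P.filter fun x => S x).card : ℝ) * P.card ≤ 1 * P.card :=
            mul_le_mul_of_nonneg_right h9 (Nat.cast_nonneg _)
        _ = P.card := one_mul _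
    calc ∑ x ∈ P, ∑ y ∈ P, g x y ≤ ∑ x ∈ P, (M + (if S x then (P.card : ℝ) else 0)) :=
          Finset.sum_le_sum hrow
      _ = P.card * M + ∑ x ∈ P, (if S x then (P.card : ℝ) else 0) := by
          rw [Finset.sum_add_distrib, Finset.sum_const, nsmul_eq_mul]
      _ ≤ P.card * M + P.card := by linarith
  have hsum : ∑ x ∈ P, ∑ y ∈ P, (g x y + g y x) = 2 * ∑ x ∈ P, ∑ y ∈ P, g x y := by
    have : ∑ x ∈ P, ∑ y ∈ P, (g x y + g y x) =
        ∑ x ∈ P, ∑ y ∈ P, g x y + ∑ x ∈ P, ∑ y ∈ P, g y x := by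
      rw [← Finset.sum_add_distrib]
      exact Finset.sum_congr rfl fun x _ => Finset.sum_add_distrib
    rw [this, hsym]; ring
  rw [hleft, hsum] at hlow
  rcases Nat.eq_zero_or_pos P.card with h0 | h0
  · rw [h0]
    push_cast
    linarith
  · have hpos : (0 : ℝ) < P.card := by exact_mod_cast h0
    have h10 : (P.card : ℝ) * (P.card - 1) ≤ P.card * (2 * M + 2) := by nlinarith
    have h11 := le_of_mul_le_mul_left h10 hpos
    linarith

theorem non_main {n d : ℕ} (hd : 2 ≤ d) (p : Fin n → Fin (d + 1) → ℝ) (hp : Good p)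
    (u : Fin (d + 1) → ℝ) (hu : ∀ i, ∑ j, u j * p i j = 1) (Q : Finset (Fin n))
    (hQ : 10 * (d + 1) ≤ Q.card) (ε : ℝ) (hε : ε ≤ 1 / 8)
    (hR : Rob ((Vs p ^ (2 * d) : Submodule ℝ (Fin n → ℝ)) : Set (Fin n → ℝ)) Q ε)
    (hv : ∀ t t' : Fin (d + 1) → Fin n, Function.Injective t → Function.Injective t' →
      (∀ i, t i ∈ Q) → (∀ i, t' i ∈ Q) → vr (Mt p t) = vr (Mt p t')) : False := by
  classical
  obtain ⟨Z, hZQ, hZ⟩ := Finset.exists_subset_card_eq (show d + 1 ≤ Q.card by omega)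
  set z : Fin (d + 1) → Fin n := fun i => Z.orderEmbOfFin hZ i with hz
  have hzinj : Function.Injective z := (Z.orderEmbOfFin hZ).injective
  have hzZ : ∀ i, z i ∈ Z := fun i => Finset.orderEmbOfFin_mem Z hZ i
  have hzQ : ∀ i, z i ∈ Q := fun i => hZQ (hzZ i)
  set P : Finset (Fin n) := Q \ Z with hP
  have hPcard : P.card = Q.card - (d + 1) := by
    rw [hP, Finset.card_sdiff_of_subset hZQ, hZ]
  have hPQ : ∀ x ∈ P, x ∈ Q := fun x hx => (Finset.mem_sdiff.1 hx).1
  have hPz : ∀ x ∈ P, ∀ i, z i ≠ x := by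
    intro x hx i h
    exact (Finset.mem_sdiff.1 hx).2 (h ▸ hzZ i)
  set v : ℝ := vr (Mt p z) with hvdef
  set A : Fin n → Fin n → ℝ := fun x y => (Mt p (T z x y)).det ^ d with hA
  set B : Fin n → Fin n → ℝ := fun x y => v * ∏ i, dl (Mt p (T z x y)) i with hB
  have hAne : ∀ x ∈ P, ∀ y ∈ P, x ≠ y → A x y ≠ 0 := by
    intro x hx y hy hxy
    exact pow_ne_zero _ (hp.1 _ (T_inj hzinj (hPz x hx) (hPz y hy) hxy))
  have hAB : ∀ x ∈ P, ∀ y ∈ P, x ≠ y → |A x y| = |B x y| := by
    intro x hx y hy hxy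
    have hinj := T_inj hzinj (hPz x hx) (hPz y hy) hxy
    have h1 : vr (Mt p (T z x y)) = v :=
      hv _ _ hinj hzinj (T_mem hzQ (hPQ x hx) (hPQ y hy)) hzQ
    have h2 : v = |(Mt p (T z x y)).det| ^ d / ∏ i, |dl (Mt p (T z x y)) i| := h1.symm
    have h3 : (∏ i, |dl (Mt p (T z x y)) i|) ≠ 0 :=
      Finset.prod_ne_zero_iff.2 fun i _ => abs_ne_zero.2 (good_dl hp hinj i)
    have hv0 : 0 < v := by
      rw [hvdef]; exact vr_pos hp hzinj
    simp only [hA, hB]
    rw [abs_pow, abs_mul, Finset.abs_prod, abs_of_pos hv0, h2]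
    field_simp
  have hsign : ((Equiv.Perm.sign (Equiv.swap (0 : Fin (d + 1)) 1) : ℤˣ) : ℝ) = -1 := by
    rw [Equiv.Perm.sign_swap (zero_ne_one' hd)]
    norm_num
  have hAs : ∀ x y, A y x = (-1) ^ d * A x y := by
    intro x y
    simp only [hA]
    rw [Mt_swap hd, Matrix.det_permute, hsign, mul_pow]
  have hBs : ∀ x y, B y x = (-1) ^ (d + 1) * B x y := by
    intro x y
    simp only [hB]
    rw [Mt_swap hd, prod_dl_perm, hsign]
    ring
  set C : Fin n → Fin n → ℝ := fun x y => A x y + B x y with hC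
  have hCs : ∀ x y, C y x = (-1) ^ d * (A x y - B x y) := by
    intro x y
    simp only [hC]
    rw [hAs, hBs, pow_succ]
    ring
  have hor : ∀ x ∈ P, ∀ y ∈ P, x ≠ y → C x y = 0 ∨ C y x = 0 := by
    intro x hx y hy hxy
    rcases abs_eq_abs.1 (hAB x hx y hy hxy) with h | h
    · right
      rw [hCs, h]; ring
    · left
      simp only [hC]
      rw [h]; ring
  have hnot : ∀ x ∈ P, ∀ y ∈ P, x ≠ y → ¬ (C x y = 0 ∧ C y x = 0) := by
    rintro x hx y hy hxy ⟨h1, h2⟩
    rw [hCs] at h2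
    have h3 : A x y - B x y = 0 := by
      rcases mul_eq_zero.1 h2 with h | h
      · exact absurd h (pow_ne_zero _ (by norm_num))
      · exact h
    have h4 : A x y + B x y = 0 := h1
    exact hAne x hx y hy hxy (by linarith)
  have hmem : ∀ x, (fun y => C x y) ∈ (Vs p ^ (2 * d) : Submodule ℝ (Fin n → ℝ)) := by
    intro x
    have h1 : (fun y => A x y) ∈ Vs p ^ d :=
      det_pow_mem hu (Function.update z 0 x) id Function.injective_id 1
    have h2 : (fun y => ∏ i, dl (Mt p (T z x y)) i) ∈ Vs p ^ d :=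
      dl_prod_mem hu (Function.update z 0 x) id Function.injective_id 1
    have h3 : (fun y => C x y) ∈ Vs p ^ d := by
      have h4 := Submodule.add_mem _ h1 (Submodule.smul_mem _ v h2)
      exact h4
    have h5 : (fun y => C x y) * (fun _ => (1 : ℝ)) ∈ Vs p ^ d * Vs p ^ d :=
      Submodule.mul_mem_mul h3 (const_mem hu d 1)
    rw [← pow_add, ← two_mul] at h5
    have h6 : (fun y => C x y) * (fun _ => (1 : ℝ)) = fun y => C x y := by
      ext y; simp
    rwa [h6] at h5
  have hcount := count P (fun x y => C x y = 0) (fun x => ∀ q ∈ Q, C x q = 0)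
    ((Q.card : ℝ) / 8) hor (by
      intro x _ hS
      rcases hR _ (hmem x) with h | h
      · exact absurd h hS
      · have h7 : ((P.filter fun y => C x y = 0).card : ℝ) ≤
            ((Q.filter fun y => C x y = 0).card : ℝ) := by
          have : P.filter (fun y => C x y = 0) ⊆ Q.filter (fun y => C x y = 0) :=
            Finset.filter_subset_filter _ Finset.sdiff_subset
          exact_mod_cast Finset.card_le_card this
        have h8 : ((Q.filter fun y => C x y = 0).card : ℝ) ≤ ε * Q.card := h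
        have h9 : ε * (Q.card : ℝ) ≤ 1 / 8 * Q.card :=
          mul_le_mul_of_nonneg_right hε (Nat.cast_nonneg _)
        linarith) (by
      intro x hx y hy hSx hSy
      by_contra hxy
      exact hnot x hx y hy hxy ⟨hSx y (hPQ y hy), hSy x (hPQ x hx)⟩)
    (div_nonneg (Nat.cast_nonneg _) (by norm_num))
  have h1 : (P.card : ℝ) = (Q.card : ℝ) - (d + 1) := by
    rw [hPcard, Nat.cast_sub (by omega)]
    push_cast
    ring
  have h2 : (10 : ℝ) * (d + 1) ≤ Q.card := by exact_mod_cast hQ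
  have h3 : (2 : ℝ) ≤ d := by exact_mod_cast hd
  rw [h1] at hcount
  linarith

end Pool.Agent.DSV
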