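import Pool.Agent.DSV.Defs

/-!
# DSV, module SZ: counting zeros (Schwartz-Zippel for a robust set)

PROOF.  Induction on `R` (`Finset.induction_on`, with `F` and `x0` general).  If `R = ∅`, `F` is constant on `Q^κ`:
changing the coordinates of `x0` one by one into those of `x` (`Function.update`) does not change the value (induct on
a finset of coordinates already changed), so `F x = F x0 ≠ 0` for all `x`.  Step `insert j R`: put
`G x = F (Function.update x j (x0 j))`.  `G` satisfies the hypotheses for `R`: as a function of the coordinate
`i ≠ j` it is one of the functions of the hypothesis for `F` (`Function.update_comm`), as a function of the coordinate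
`j` it is constant, hence in `W` by `hc` (constants are in `W`); it does not depend on the coordinates outside `R`, and
`G x0 = F x0 ≠ 0`.  The zeros `x` of `F` in `Q^κ` are: those with `G x = 0`, at most `R.card * ε * |Q| ^ |κ|`; and
those with `G x ≠ 0`: for fixed values of the other coordinates, the function `q ↦ F (update x j q)` is in `W` and does
not vanish at `x0 j ∈ Q`, so at most `ε |Q|` values of the coordinate `j` are zeros: at most `ε |Q| * |Q| ^ (|κ| - 1)`
of them (map `x` to `update x j (x0 j)`: the image lies in a set with `|Q| ^ (|κ| - 1)` elements, and the fibres have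
at most `ε |Q|` elements, `Finset.card_le_mul_card_image` or `Finset.card_eq_sum_card_fiberwise`).
-/

namespace Pool.Agent.DSV

/-- a function that does not depend on any coordinate is constant -/
private theorem sz_const {ι κ : Type*} [Fintype κ] [DecidableEq κ] (F : (κ → ι) → ℝ)
    (hR : ∀ x j q, F (Function.update x j q) = F x) (x x0 : κ → ι) : F x = F x0 := by
  have h : ∀ s : Finset κ, F (fun i => if i ∈ s then x i else x0 i) = F x0 := by
    intro s
    induction s using Finset.induction_on with
    | empty => simp
    | insert a s ha ih =>
      rw [← ih, ← hR (fun i => if i ∈ s then x i else x0 i) a (x a)]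
      congr 1
      funext i
      by_cases hi : i = a
      · subst hi
        simp
      · simp [Function.update_of_ne hi, Finset.mem_insert, hi]
  have := h Finset.univ
  simpa using this

/-- the number of zeros along the coordinate `j` -/
private theorem sz_line {ι κ : Type*} [Fintype κ] [DecidableEq κ] [DecidableEq ι] (Q : Finset ι)
    (Z : Finset (κ → ι)) (hZ : ∀ x ∈ Z, ∀ i, x i ∈ Q) (j : κ) (c : ℝ)
    (h : ∀ x : κ → ι, (((Z.filter fun y => ∀ i, i ≠ j → y i = x i)).card : ℝ) ≤ c * Q.card)
    (q0 : ι) (hq0 : q0 ∈ Q) :
    (Z.card : ℝ) ≤ c * (Q.card : ℝ) ^ Fintype.card κ := by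
  classical
  -- the projection
  set B : Finset (κ → ι) := Fintype.piFinset (fun i => if i = j then {q0} else Q) with hB
  have hBc : B.card = Q.card ^ (Fintype.card κ - 1) := by
    rw [hB, Fintype.card_piFinset, ← Finset.mul_prod_erase _ _ (Finset.mem_univ j)]
    simp only [if_true, Finset.card_singleton, one_mul]
    rw [Finset.prod_congr rfl (g := fun _ => Q.card) (fun i hi => by
      rw [if_neg (Finset.ne_of_mem_erase hi)])]
    rw [Finset.prod_const, Finset.card_erase_of_mem (Finset.mem_univ j), Finset.card_univ]
  have hmap : ∀ x ∈ Z, Function.update x j q0 ∈ B := by
    intro x hx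
    rw [hB, Fintype.mem_piFinset]
    intro i
    by_cases hi : i = j
    · subst hi
      simp
    · rw [if_neg hi, Function.update_of_ne hi]
      exact hZ x hx i
  have h1 := Finset.card_eq_sum_card_fiberwise hmap
  have h2 : (Z.card : ℝ) = ∑ b ∈ B, ((Z.filter fun x => Function.update x j q0 = b).card : ℝ) := by
    rw [h1]
    push_cast
    rfl
  have h3 : ∀ b ∈ B, ((Z.filter fun x => Function.update x j q0 = b).card : ℝ) ≤ c * Q.card := by
    intro b _
    refine le_trans ?_ (h b)
    have : (Z.filter fun x => Function.update x j q0 = b) ⊆
        Z.filter fun y => ∀ i, i ≠ j → y i = b i := by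
      intro x hx
      rw [Finset.mem_filter] at hx ⊢
      refine ⟨hx.1, fun i hi => ?_⟩
      rw [← hx.2, Function.update_of_ne hi]
    exact_mod_cast Finset.card_le_card this
  have hκ : 0 < Fintype.card κ := Fintype.card_pos_iff.mpr ⟨j⟩
  calc (Z.card : ℝ) ≤ ∑ b ∈ B, c * (Q.card : ℝ) := by
        rw [h2]
        exact Finset.sum_le_sum h3
    _ = c * (Q.card : ℝ) ^ Fintype.card κ := by
        rw [Finset.sum_const, hBc, nsmul_eq_mul]
        push_cast
        have : (Q.card : ℝ) ^ Fintype.card κ = (Q.card : ℝ) ^ (Fintype.card κ - 1) * Q.card := by
          rw [← pow_succ, Nat.sub_add_cancel hκ]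
        rw [this]
        ring

theorem sz {ι κ : Type*} [Fintype κ] [DecidableEq κ] [DecidableEq ι] (Q : Finset ι)
    (W : Set (ι → ℝ)) (hc : ∀ c : ℝ, (fun _ => c) ∈ W) (ε : ℝ) (hε : 0 ≤ ε) (hQ : Rob W Q ε)
    (R : Finset κ) (F : (κ → ι) → ℝ)
    (hF : ∀ x j, (fun q => F (Function.update x j q)) ∈ W)
    (hR : ∀ x j q, j ∉ R → F (Function.update x j q) = F x)
    (x0 : κ → ι) (hx0 : ∀ j, x0 j ∈ Q) (h0 : F x0 ≠ 0) :
    (((Fintype.piFinset fun _ : κ => Q).filter fun x => F x = 0).card : ℝ) ≤
      R.card * ε * (Q.card : ℝ) ^ Fintype.card κ := by
  classical
  induction R using Finset.induction_on generalizing F with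
  | empty =>
    have h : ((Fintype.piFinset fun _ : κ => Q).filter fun x => F x = 0) = ∅ := by
      rw [Finset.filter_eq_empty_iff]
      intro x _
      rw [sz_const F (fun x j q => hR x j q (Finset.notMem_empty j)) x x0]
      exact h0
    rw [h]
    simp
  | insert j R hj ih =>
    set G : (κ → ι) → ℝ := fun x => F (Function.update x j (x0 j)) with hG
    have hG1 : ∀ x i, (fun q => G (Function.update x i q)) ∈ W := by
      intro x i
      by_cases hi : i = j
      · subst hi
        have : (fun q => G (Function.update x i q)) = fun _ => F (Function.update x i (x0 i)) := by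
          funext q
          simp only [hG, Function.update_idem]
        rw [this]
        exact hc _
      · have : (fun q => G (Function.update x i q)) =
            fun q => F (Function.update (Function.update x j (x0 j)) i q) := by
          funext q
          simp only [hG]
          rw [Function.update_comm hi]
        rw [this]
        exact hF _ _
    have hG2 : ∀ x i q, i ∉ R → G (Function.update x i q) = G x := by
      intro x i q hi
      by_cases hij : i = j
      · subst hij
        simp only [hG, Function.update_idem]
      · simp only [hG]
        rw [Function.update_comm hij]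
        exact hR _ _ _ (by
          rw [Finset.mem_insert]
          push Not
          exact ⟨hij, hi⟩)
    have hG3 : G x0 ≠ 0 := by
      simp only [hG, Function.update_eq_self]
      exact h0
    have h1 := ih G hG1 hG2 hG3
    -- the zeros with G x ≠ 0
    set Z := ((Fintype.piFinset fun _ : κ => Q).filter fun x => F x = 0 ∧ G x ≠ 0) with hZ
    have h2 : (Z.card : ℝ) ≤ ε * (Q.card : ℝ) ^ Fintype.card κ := by
      refine sz_line Q Z ?_ j ε ?_ (x0 j) (hx0 j)
      · intro x hx i
        rw [hZ, Finset.mem_filter, Fintype.mem_piFinset] at hx
        exact hx.1 i
      · intro x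
        by_cases hGx : F (Function.update x j (x0 j)) = 0
        · have : (Z.filter fun y => ∀ i, i ≠ j → y i = x i) = ∅ := by
            rw [Finset.filter_eq_empty_iff]
            intro y hy hyx
            rw [hZ, Finset.mem_filter] at hy
            apply hy.2.2
            simp only [hG]
            have : Function.update y j (x0 j) = Function.update x j (x0 j) := by
              funext i
              by_cases hi : i = j
              · subst hi
                simp
              · rw [Function.update_of_ne hi, Function.update_of_ne hi, hyx i hi]
            rw [this]
            exact hGx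
          rw [this]
          simp
          positivity
        · have h3 := hQ _ (hF x j)
          rcases h3 with h3 | h3
          · exact absurd (h3 (x0 j) (hx0 j)) hGx
          · refine le_trans ?_ h3
            have : (Z.filter fun y => ∀ i, i ≠ j → y i = x i).card ≤
                (Q.filter fun q => F (Function.update x j q) = 0).card := by
              refine Finset.card_le_card_of_injOn (fun y => y j) ?_ ?_
              · intro y hy
                rw [Finset.mem_coe, Finset.mem_filter, hZ, Finset.mem_filter,
                  Fintype.mem_piFinset] at hy
                rw [Finset.mem_coe, Finset.mem_filter]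
                refine ⟨hy.1.1 j, ?_⟩
                have : Function.update x j (y j) = y := by
                  funext i
                  by_cases hi : i = j
                  · subst hi
                    simp
                  · rw [Function.update_of_ne hi, hy.2 i hi]
                rw [this]
                exact hy.1.2.1
              · intro y hy z hz hyz
                rw [Finset.mem_coe, Finset.mem_filter] at hy hz
                funext i
                by_cases hi : i = j
                · subst hi
                  exact hyz
                · rw [hy.2 i hi, hz.2 i hi]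
            exact_mod_cast this
    have h4 : ((Fintype.piFinset fun _ : κ => Q).filter fun x => F x = 0) ⊆
        ((Fintype.piFinset fun _ : κ => Q).filter fun x => G x = 0) ∪ Z := by
      intro x hx
      rw [Finset.mem_filter] at hx
      rw [Finset.mem_union, Finset.mem_filter, hZ, Finset.mem_filter]
      by_cases h : G x = 0
      · exact Or.inl ⟨hx.1, h⟩
      · exact Or.inr ⟨hx.1, hx.2, h⟩
    have h5 : (((Fintype.piFinset fun _ : κ => Q).filter fun x => F x = 0).card : ℝ) ≤
        (((Fintype.piFinset fun _ : κ => Q).filter fun x => G x = 0).card : ℝ) + Z.card := by
      exact_mod_cast (Finset.card_le_card h4).trans (Finset.card_union_le _ _)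
    rw [Finset.card_insert_of_notMem hj]
    push_cast
    nlinarith

end Pool.Agent.DSV
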