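import Pool.Agent.DSV.NonA
import Pool.Agent.DSV.NonB
import Pool.Agent.DSV.SZ

/-!
# DSV, module Del: the deletion argument

PROOF.  `bad_card`: for injective `a b : Fin (d + 1) → Fin K` with different ranges, the function
`F x = Fs s (Mt p (x ∘ a)) (Mt p (x ∘ b))` on `Fin K → Fin n` satisfies the hypotheses of `sz` with `W = Vs p ^ (2 d)`
(`Fs_mem`, `const_mem`), `R = univ.image a ∪ univ.image b` (at most `2 (d + 1)` elements; if `j ∉ R` then
`update x j q (a i) = x (a i)`), and there is `x0` with `F x0 ≠ 0`: otherwise `non_const` and `non_main` give a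
contradiction.
`del`: for `x` in `Q ^ K` (`Fintype.piFinset`) let `N x` be the number of pairs `(a, b)` of injective maps with different
ranges with `Fs 1 = 0` or `Fs (-1) = 0` at `x`, plus the number of pairs `(i, j)`, `i ≠ j`, with `x i = x j`.  The sum
of `N x` over `Q ^ K` is at most `K ^ (2 d + 2) * (4 d + 4) ε |Q| ^ K + K ^ 2 * |Q| ^ (K - 1)` and
`|Q| ^ (K - 1) ≤ ε |Q| ^ K`, so there is `x` with `N x ≤ K ^ (2 d + 2) (4 d + 5) ε ≤ K / 2` (`Finset.exists_le_of_sum_le`).
Let `J` be the set of the indices which are neither `a 0` for a pair `(a, b)` counted in `N x` nor `i` for a pair `(i, j)`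
counted in `N x`: `J.card ≥ K - N x ≥ K / 2`, `x` is injective on `J`; `S = J.image x`.  If `A ≠ B` are subsets of `S` with
`d + 1` elements and equal volumes, `A = univ.image (x ∘ a)`, `B = univ.image (x ∘ b)` with injective `a, b` with values
in `J`, with different ranges, `vol_simplex_eq_iff` and `vr_iff` give that `(a, b)` is counted in `N x`, so `a 0 ∉ J`:
contradiction.
-/

namespace Pool.Agent.DSV

theorem bad_card {n d : ℕ} (hd : 2 ≤ d) (p : Fin n → Fin (d + 1) → ℝ) (hp : Good p)
    (u : Fin (d + 1) → ℝ) (hu : ∀ i, ∑ j, u j * p i j = 1) (Q : Finset (Fin n))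
    (hQ : 10 * (d + 1) ≤ Q.card) (ε : ℝ) (hε0 : 0 < ε) (hε : ε ≤ 1 / 8)
    (hR : Rob ((Vs p ^ (2 * d) : Submodule ℝ (Fin n → ℝ)) : Set (Fin n → ℝ)) Q ε) (K : ℕ)
    (a b : Fin (d + 1) → Fin K) (ha : Function.Injective a) (hb : Function.Injective b)
    (hab : Set.range a ≠ Set.range b) (s : ℝ) (hs : s = 1 ∨ s = -1) :
    (((Fintype.piFinset fun _ : Fin K => Q).filter fun x =>
      Fs s (Mt p fun i => x (a i)) (Mt p fun i => x (b i)) = 0).card : ℝ) ≤
      (2 * (d + 1)) * ε * (Q.card : ℝ) ^ K := by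
  have hex : ∃ x0 : Fin K → Fin n, (∀ j, x0 j ∈ Q) ∧
      Fs s (Mt p fun i => x0 (a i)) (Mt p fun i => x0 (b i)) ≠ 0 := by
    by_contra hcon
    push Not at hcon
    exact non_main hd p hp u hu Q hQ ε hε hR (fun t t' ht ht' htQ htQ' =>
      non_const p hp Q (by omega) s hs a b ha hb hab hcon t t' ht ht' htQ htQ')
  obtain ⟨x0, hx0, h0⟩ := hex
  have hsz := sz Q ((Vs p ^ (2 * d) : Submodule ℝ (Fin n → ℝ)) : Set (Fin n → ℝ))
    (fun c => const_mem hu (2 * d) c) ε hε0.le hR (Finset.univ.image a ∪ Finset.univ.image b)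
    (fun x : Fin K → Fin n => Fs s (Mt p fun i => x (a i)) (Mt p fun i => x (b i)))
    (fun x j => Fs_mem hu s x a b ha hb j) (by
      intro x j q hj
      have h1 : (fun i => Function.update x j q (a i)) = fun i => x (a i) := by
        funext i
        rw [Function.update_of_ne]
        intro h
        exact hj (Finset.mem_union_left _ (Finset.mem_image.2 ⟨i, Finset.mem_univ _, h⟩))
      have h2 : (fun i => Function.update x j q (b i)) = fun i => x (b i) := by
        funext i
        rw [Function.update_of_ne]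
        intro h
        exact hj (Finset.mem_union_right _ (Finset.mem_image.2 ⟨i, Finset.mem_univ _, h⟩))
      simp only [h1, h2]) x0 hx0 h0
  rw [Fintype.card_fin] at hsz
  refine hsz.trans ?_
  have hc : (Finset.univ.image a ∪ Finset.univ.image b).card ≤ 2 * (d + 1) := by
    refine (Finset.card_union_le _ _).trans ?_
    have h1 : (Finset.univ.image a).card ≤ d + 1 := by
      simpa using (Finset.card_image_le (s := Finset.univ) (f := a))
    have h2 : (Finset.univ.image b).card ≤ d + 1 := by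
      simpa using (Finset.card_image_le (s := Finset.univ) (f := b))
    omega
  have hc' : ((Finset.univ.image a ∪ Finset.univ.image b).card : ℝ) ≤ 2 * (d + 1) := by
    exact_mod_cast hc
  gcongr

private theorem eq_card {n K : ℕ} (Q : Finset (Fin n)) (ε : ℝ)
    (hQε : ε⁻¹ ≤ Q.card) (hε0 : 0 < ε) (i j : Fin K) (hij : i ≠ j) :
    (((Fintype.piFinset fun _ : Fin K => Q).filter fun x => x i = x j).card : ℝ) ≤
      ε * (Q.card : ℝ) ^ K := by
  classical
  have hinj : Set.InjOn (fun z : (Fin K → Fin n) × Fin n => Function.update z.1 i z.2)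
      (((Fintype.piFinset fun _ : Fin K => Q).filter fun x => x i = x j) ×ˢ Q :
        Finset ((Fin K → Fin n) × Fin n)) := by
    rintro ⟨x, q⟩ hx ⟨y, r⟩ hy h
    simp only [Finset.coe_product, Set.mem_prod, Finset.mem_coe, Finset.mem_filter] at hx hy
    simp only at h
    have hq : q = r := by
      have := congrFun h i
      simpa using this
    have hk : ∀ k, k ≠ i → x k = y k := by
      intro k hk
      have := congrFun h k
      simpa [Function.update_of_ne hk] using this
    have hj := hk j hij.symm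
    have hi : x i = y i := by rw [hx.1.2, hy.1.2, hj]
    refine Prod.ext ?_ hq
    funext k
    by_cases h' : k = i
    · rw [h']; exact hi
    · exact hk k h'
  have hsub : ∀ z ∈ (((Fintype.piFinset fun _ : Fin K => Q).filter fun x => x i = x j) ×ˢ Q :
      Finset ((Fin K → Fin n) × Fin n)), Function.update z.1 i z.2 ∈
        (Fintype.piFinset fun _ : Fin K => Q) := by
    rintro ⟨x, q⟩ hx
    simp only [Finset.mem_product, Finset.mem_filter, Fintype.mem_piFinset] at hx
    rw [Fintype.mem_piFinset]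
    intro k
    by_cases h' : k = i
    · subst h'; simpa using hx.2
    · simpa [Function.update_of_ne h'] using hx.1.1 k
  have hle := Finset.card_le_card_of_injOn _ hsub hinj
  rw [Finset.card_product, Fintype.card_piFinset] at hle
  simp only [Finset.prod_const, Finset.card_univ, Fintype.card_fin] at hle
  have hle' : ((((Fintype.piFinset fun _ : Fin K => Q).filter fun x => x i = x j).card : ℝ) *
      Q.card) ≤ (Q.card : ℝ) ^ K := by
    exact_mod_cast hle
  have hQ1 : (1 : ℝ) ≤ ε * Q.card := by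
    have := mul_le_mul_of_nonneg_left hQε hε0.le
    rwa [mul_inv_cancel₀ hε0.ne'] at this
  calc ((((Fintype.piFinset fun _ : Fin K => Q).filter fun x => x i = x j).card : ℝ))
      ≤ (((Fintype.piFinset fun _ : Fin K => Q).filter fun x => x i = x j).card : ℝ) *
        (ε * Q.card) := le_mul_of_one_le_right (by positivity) hQ1
    _ = ε * ((((Fintype.piFinset fun _ : Fin K => Q).filter fun x => x i = x j).card : ℝ) *
        Q.card) := by ring
    _ ≤ ε * (Q.card : ℝ) ^ K := mul_le_mul_of_nonneg_left hle' hε0.le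

/-- a subset of the image of a set on which `x` is injective, parametrised -/
private theorem exists_param {n K m : ℕ} (x : Fin K → Fin n) (J : Finset (Fin K))
    (hx : Set.InjOn x J) (A : Finset (Fin n)) (hA : A ⊆ J.image x) (hm : A.card = m) :
    ∃ a : Fin m → Fin K, Function.Injective a ∧ (∀ i, a i ∈ J) ∧
      Finset.univ.image (fun i => x (a i)) = A := by
  classical
  have himg : (J.filter fun j => x j ∈ A).image x = A := by
    ext y
    simp only [Finset.mem_image, Finset.mem_filter]
    constructor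
    · rintro ⟨j, ⟨_, h⟩, rfl⟩; exact h
    · intro hy
      obtain ⟨j, hj, rfl⟩ := Finset.mem_image.1 (hA hy)
      exact ⟨j, ⟨hj, hy⟩, rfl⟩
  have hcard : (J.filter fun j => x j ∈ A).card = m := by
    rw [← hm, ← Finset.card_image_of_injOn (f := x) (s := J.filter fun j => x j ∈ A), himg]
    intro i hi j hj h
    exact hx (Finset.mem_of_mem_filter i hi) (Finset.mem_of_mem_filter j hj) h
  refine ⟨(J.filter fun j => x j ∈ A).orderEmbOfFin hcard, (Finset.orderEmbOfFin _ _).injective,
    fun i => Finset.mem_of_mem_filter _ (Finset.orderEmbOfFin_mem _ hcard i), ?_⟩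
  calc Finset.univ.image (fun i => x ((J.filter fun j => x j ∈ A).orderEmbOfFin hcard i))
      = (Finset.univ.image ((J.filter fun j => x j ∈ A).orderEmbOfFin hcard)).image x := by
        rw [Finset.image_image]; rfl
    _ = (J.filter fun j => x j ∈ A).image x := by rw [Finset.image_orderEmbOfFin_univ]
    _ = A := himg

theorem del {n d : ℕ} (hd : 2 ≤ d) (p : Fin n → Fin (d + 1) → ℝ) (hp : Good p)
    (u : Fin (d + 1) → ℝ) (hu : ∀ i, ∑ j, u j * p i j = 1) (Q : Finset (Fin n))
    (hQ : 10 * (d + 1) ≤ Q.card) (ε : ℝ) (hε0 : 0 < ε) (hε : ε ≤ 1 / 8)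
    (hR : Rob ((Vs p ^ (2 * d) : Submodule ℝ (Fin n → ℝ)) : Set (Fin n → ℝ)) Q ε)
    (hQε : ε⁻¹ ≤ Q.card) (K : ℕ) (hK : (K : ℝ) ^ (2 * d + 1) * (4 * d + 5) * ε ≤ 1 / 2) :
    ∃ S : Finset (Fin n), (K : ℝ) / 2 ≤ S.card ∧ DistinctVol (fun i => Hyp (p i)) S := by
  classical
  have hQ0 : 0 < Q.card := by omega
  set X : Finset (Fin K → Fin n) := Fintype.piFinset fun _ : Fin K => Q with hX
  have hXcard : X.card = Q.card ^ K := by
    rw [hX, Fintype.card_piFinset]; simp
  have hXne : X.Nonempty := by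
    rw [← Finset.card_pos, hXcard]; positivity
  let P1 : Finset ((Fin (d + 1) → Fin K) × (Fin (d + 1) → Fin K)) :=
    Finset.univ.filter fun c => Function.Injective c.1 ∧ Function.Injective c.2 ∧
      Set.range c.1 ≠ Set.range c.2
  let b1 : (Fin K → Fin n) → ((Fin (d + 1) → Fin K) × (Fin (d + 1) → Fin K)) → Prop :=
    fun x c => Fs 1 (Mt p fun i => x (c.1 i)) (Mt p fun i => x (c.2 i)) = 0 ∨
      Fs (-1) (Mt p fun i => x (c.1 i)) (Mt p fun i => x (c.2 i)) = 0
  let P2 : Finset (Fin K × Fin K) := Finset.univ.filter fun c => c.1 ≠ c.2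
  let b2 : (Fin K → Fin n) → (Fin K × Fin K) → Prop := fun x c => x c.1 = x c.2
  -- the sum of the counts
  have hP1 : (P1.card : ℝ) ≤ (K : ℝ) ^ (2 * d + 2) := by
    have h1 : P1.card ≤ K ^ (2 * d + 2) := by
      refine (Finset.card_le_univ _).trans (le_of_eq ?_)
      rw [Fintype.card_prod, Fintype.card_fun, Fintype.card_fin, Fintype.card_fin, ← pow_add]
      congr 1
      ring
    exact_mod_cast h1
  have hP2 : (P2.card : ℝ) ≤ (K : ℝ) ^ 2 := by
    have h1 : P2.card ≤ K ^ 2 := by
      refine (Finset.card_le_univ _).trans (le_of_eq ?_)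
      rw [Fintype.card_prod, Fintype.card_fin, sq]
    exact_mod_cast h1
  have hs1 : (∑ x ∈ X, ((P1.filter (b1 x)).card : ℝ)) ≤
      (K : ℝ) ^ (2 * d + 2) * ((4 * d + 4) * ε * (Q.card : ℝ) ^ K) := by
    have hswap : (∑ x ∈ X, ((P1.filter (b1 x)).card : ℝ)) =
        ∑ c ∈ P1, ((X.filter fun x => b1 x c).card : ℝ) := by
      simp only [Finset.card_filter, Nat.cast_sum]
      exact Finset.sum_comm
    rw [hswap]
    have hterm : ∀ c ∈ P1, ((X.filter fun x => b1 x c).card : ℝ) ≤
        (4 * d + 4) * ε * (Q.card : ℝ) ^ K := by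
      intro c hc
      obtain ⟨hc1, hc2, hc3⟩ := (Finset.mem_filter.1 hc).2
      have e1 := bad_card hd p hp u hu Q hQ ε hε0 hε hR K c.1 c.2 hc1 hc2 hc3 1 (Or.inl rfl)
      have e2 := bad_card hd p hp u hu Q hQ ε hε0 hε hR K c.1 c.2 hc1 hc2 hc3 (-1) (Or.inr rfl)
      have hle : (X.filter fun x => b1 x c).card ≤
          (X.filter fun x => Fs 1 (Mt p fun i => x (c.1 i)) (Mt p fun i => x (c.2 i)) = 0).card +
          (X.filter fun x => Fs (-1) (Mt p fun i => x (c.1 i))
            (Mt p fun i => x (c.2 i)) = 0).card := by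
        rw [show (X.filter fun x => b1 x c) = _ from Finset.filter_or _ _ _]
        exact Finset.card_union_le _ _
      have hle' : ((X.filter fun x => b1 x c).card : ℝ) ≤
          ((X.filter fun x => Fs 1 (Mt p fun i => x (c.1 i))
            (Mt p fun i => x (c.2 i)) = 0).card : ℝ) +
          ((X.filter fun x => Fs (-1) (Mt p fun i => x (c.1 i))
            (Mt p fun i => x (c.2 i)) = 0).card : ℝ) := by
        exact_mod_cast hle
      refine hle'.trans ((add_le_add e1 e2).trans (le_of_eq ?_))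
      ring
    refine (Finset.sum_le_sum hterm).trans ?_
    rw [Finset.sum_const, nsmul_eq_mul]
    exact mul_le_mul_of_nonneg_right hP1 (by positivity)
  have hs2 : (∑ x ∈ X, ((P2.filter (b2 x)).card : ℝ)) ≤
      (K : ℝ) ^ (2 * d + 2) * (ε * (Q.card : ℝ) ^ K) := by
    have hswap : (∑ x ∈ X, ((P2.filter (b2 x)).card : ℝ)) =
        ∑ c ∈ P2, ((X.filter fun x => b2 x c).card : ℝ) := by
      simp only [Finset.card_filter, Nat.cast_sum]
      exact Finset.sum_comm
    rw [hswap]
    have hterm : ∀ c ∈ P2, ((X.filter fun x => b2 x c).card : ℝ) ≤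
        ε * (Q.card : ℝ) ^ K := by
      intro c hc
      exact eq_card Q ε hQε hε0 c.1 c.2 (Finset.mem_filter.1 hc).2
    refine (Finset.sum_le_sum hterm).trans ?_
    rw [Finset.sum_const, nsmul_eq_mul]
    refine mul_le_mul_of_nonneg_right (hP2.trans ?_) (by positivity)
    rcases Nat.eq_zero_or_pos K with h0 | h0
    · subst h0; simp
    · exact pow_le_pow_right₀ (by exact_mod_cast h0) (by omega)
  have hsum : ∑ x ∈ X, (((P1.filter (b1 x)).card : ℝ) + ((P2.filter (b2 x)).card : ℝ)) ≤
      ∑ _x ∈ X, (K : ℝ) / 2 := by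
    rw [Finset.sum_add_distrib, Finset.sum_const, nsmul_eq_mul, hXcard]
    refine (add_le_add hs1 hs2).trans ?_
    have h1 : (K : ℝ) ^ (2 * d + 2) * ((4 * d + 4) * ε * (Q.card : ℝ) ^ K) +
        (K : ℝ) ^ (2 * d + 2) * (ε * (Q.card : ℝ) ^ K) =
        (K : ℝ) * (Q.card : ℝ) ^ K * ((K : ℝ) ^ (2 * d + 1) * (4 * d + 5) * ε) := by
      rw [show 2 * d + 2 = 2 * d + 1 + 1 by ring, pow_succ (K : ℝ) (2 * d + 1)]
      ring
    rw [h1]
    refine (mul_le_mul_of_nonneg_left hK (by positivity)).trans (le_of_eq ?_)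
    push_cast
    ring
  obtain ⟨x, hxX, hx⟩ := Finset.exists_le_of_sum_le hXne hsum
  let B : Finset (Fin K) := (P1.filter (b1 x)).image (fun c => c.1 0) ∪
    (P2.filter (b2 x)).image (fun c => c.1)
  have hB : B.card ≤ (P1.filter (b1 x)).card + (P2.filter (b2 x)).card :=
    (Finset.card_union_le _ _).trans (add_le_add Finset.card_image_le Finset.card_image_le)
  have hB' : (B.card : ℝ) ≤ (K : ℝ) / 2 := by
    refine le_trans ?_ hx
    exact_mod_cast hB
  have hJinj : Set.InjOn x (Bᶜ : Finset (Fin K)) := by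
    intro i hi j hj hij
    by_contra hne
    have hi' : i ∉ B := by simpa using hi
    apply hi'
    refine Finset.mem_union_right _ (Finset.mem_image.2 ⟨(i, j), ?_, rfl⟩)
    exact Finset.mem_filter.2 ⟨Finset.mem_filter.2 ⟨Finset.mem_univ _, hne⟩, hij⟩
  refine ⟨(Bᶜ).image x, ?_, ?_⟩
  · rw [Finset.card_image_of_injOn hJinj]
    have h1 : B.card + (Bᶜ).card = K := by
      simp
    have h2 : (B.card : ℝ) + ((Bᶜ).card : ℝ) = K := by exact_mod_cast h1
    linarith
  · intro A A' hA hA' hcA hcA' hvol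
    obtain ⟨a, ha, haJ, haA⟩ := exists_param x Bᶜ hJinj A hA hcA
    obtain ⟨b, hb, hbJ, hbA⟩ := exists_param x Bᶜ hJinj A' hA' hcA'
    by_contra hne
    have hab : Set.range a ≠ Set.range b := by
      intro h
      apply hne
      rw [← haA, ← hbA]
      ext y
      simp only [Finset.mem_image, Finset.mem_univ, true_and]
      constructor
      · rintro ⟨i, rfl⟩
        have : a i ∈ Set.range b := h ▸ Set.mem_range_self i
        obtain ⟨j, hj⟩ := this
        exact ⟨j, by rw [hj]⟩
      · rintro ⟨i, rfl⟩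
        have : b i ∈ Set.range a := h ▸ Set.mem_range_self i
        obtain ⟨j, hj⟩ := this
        exact ⟨j, by rw [hj]⟩
    have hxa : Function.Injective fun i => x (a i) := by
      intro i j h
      exact ha (hJinj (by simpa using haJ i) (by simpa using haJ j) h)
    have hxb : Function.Injective fun i => x (b i) := by
      intro i j h
      exact hb (hJinj (by simpa using hbJ i) (by simpa using hbJ j) h)
    rw [← haA, ← hbA] at hvol
    have hvr := (vol_simplex_eq_iff p hp _ _ hxa hxb).1 hvol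
    have hFs := (vr_iff hp hxa hxb).1 hvr
    have hmem : a 0 ∈ B := by
      refine Finset.mem_union_left _ (Finset.mem_image.2 ⟨(a, b), ?_, rfl⟩)
      exact Finset.mem_filter.2 ⟨Finset.mem_filter.2 ⟨Finset.mem_univ _, ha, hb, hab⟩, hFs⟩
    exact (Finset.mem_compl.1 (haJ 0)) hmem

end Pool.Agent.DSV
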