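import Pool.Agent.DSV.UpV

/-!
# DSV, module Up: the upper bound

PROOF.  Take `p i = pm d i`, `i : Fin n` (`d ≥ 1`); `GenPos` by `good_pm`, `genPos_of_good` (the normal vector has first
coordinate `x ^ 0 = 1`).  Let `S` have distinct volumes.  For a natural number `s` let
`Ss = S.filter fun x => ∃ y ∈ S, (x : ℕ) + y = s`.  Claim: `Ss.card ≤ d + 1`.  Otherwise there is `x ∈ Ss` with
`2 x ≠ s` (at most one element has `2 x = s`, and `d + 2 ≥ 2`), and a subset `T` of `Ss` with `d + 1` elements, containing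
`x` and not containing the `x'` with `x + x' = s` (`Finset.exists_subsuperset_card_eq` between `{x}` and `Ss.erase x'`).
Let `T'` be the image of `T` under the reflection `y ↦ s - y`: `T' ⊆ S`, `T'.card = d + 1`, `T' ≠ T` because `x ∈ T` and
`x ∉ T'` (else `s - x = x' ∈ T`).  Enumerate `T = univ.image t`, so `T' = univ.image t'` with `t' i = s - t i`; by
`vr_pm_reflect` and `vol_simplex_eq_iff` the volumes are equal: contradiction.  Summing over `s < 2 n`:
`S.card ^ 2 = ∑ s, (number of pairs (x, y) ∈ S × S with x + y = s) = ∑ s, Ss.card ≤ 2 n (d + 1)`.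
-/

namespace Pool.Agent.DSV

/-- the elements of `S` that are a summand of `s` -/
private def Ss {n : ℕ} (S : Finset (Fin n)) (s : ℕ) : Finset (Fin n) :=
  S.filter fun x => ∃ y ∈ S, (x : ℕ) + (y : ℕ) = s

private lemma Ss_card {d n : ℕ} (p : Fin n → Fin (d + 1) → ℝ)
    (hpd : p = fun i : Fin n => pm d (((i : ℕ) : ℝ))) (hp : Good p) (S : Finset (Fin n))
    (hS : DistinctVol (fun i => Hyp (p i)) S) (s : ℕ) : (Ss S s).card ≤ d + 1 := by
  classical
  by_contra hcon
  push Not at hcon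
  -- an element `x` with `2 x ≠ s`
  have hx : ∃ x ∈ Ss S s, 2 * (x : ℕ) ≠ s := by
    by_contra h
    push Not at h
    have h1 : (Ss S s).card ≤ 1 := by
      rw [Finset.card_le_one]
      intro a ha b hb
      have h2 := h a ha
      have h3 := h b hb
      exact Fin.ext (by omega)
    omega
  obtain ⟨x, hxS, hx2⟩ := hx
  obtain ⟨hxS1, y, hyS, hxy⟩ := Finset.mem_filter.1 hxS
  have hyx : y ≠ x := by
    intro h
    rw [h] at hxy
    omega
  have hyS2 : y ∈ Ss S s := Finset.mem_filter.2 ⟨hyS, x, hxS1, by omega⟩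
  obtain ⟨T, hT1, hT2, hT3⟩ := Finset.exists_subsuperset_card_eq (s := {x})
    (t := (Ss S s).erase y) (n := d + 1)
    (Finset.singleton_subset_iff.2 (Finset.mem_erase.2 ⟨hyx.symm, hxS⟩))
    (by rw [Finset.card_singleton]; omega)
    (by rw [Finset.card_erase_of_mem hyS2]; omega)
  have hTS : ∀ z ∈ T, z ∈ Ss S s := fun z hz => (Finset.mem_erase.1 (hT2 hz)).2
  obtain ⟨t, ht⟩ : ∃ t : Fin (d + 1) → Fin n, t = T.orderEmbOfFin hT3 := ⟨_, rfl⟩
  have htinj : Function.Injective t := by
    rw [ht]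
    exact (T.orderEmbOfFin hT3).injective
  have htT : Finset.univ.image t = T := by
    rw [ht]
    ext z
    rw [Finset.mem_image]
    constructor
    · rintro ⟨i, _, rfl⟩
      exact Finset.orderEmbOfFin_mem T hT3 i
    · intro hz
      have h1 : z ∈ Set.range (T.orderEmbOfFin hT3) := by
        rw [Finset.range_orderEmbOfFin]
        exact hz
      obtain ⟨i, hi⟩ := h1
      exact ⟨i, Finset.mem_univ _, hi⟩
  have htm : ∀ i, t i ∈ T := fun i => by
    rw [← htT]
    exact Finset.mem_image_of_mem _ (Finset.mem_univ _)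
  have hr : ∀ i, ∃ z ∈ S, (t i : ℕ) + (z : ℕ) = s := fun i =>
    (Finset.mem_filter.1 (hTS _ (htm i))).2
  choose r hrS hrs using hr
  have hrinj : Function.Injective r := by
    intro i j hij
    apply htinj
    have h1 := hrs i
    have h2 := hrs j
    rw [hij] at h1
    exact Fin.ext (by omega)
  have hvr : vr (Mt p t) = vr (Mt p r) := by
    have h1 := vr_pm_reflect (d := d) (fun i => (((t i : Fin n) : ℕ) : ℝ)) (s : ℝ)
    have h2 : Mt p t = Matrix.of fun i => pm d ((((t i : Fin n) : ℕ) : ℝ)) := by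
      rw [hpd]
      rfl
    have h3 : Mt p r = Matrix.of fun i => pm d ((s : ℝ) - (((t i : Fin n) : ℕ) : ℝ)) := by
      rw [hpd]
      ext i j
      change pm d (((r i : Fin n) : ℕ) : ℝ) j = pm d ((s : ℝ) - (((t i : Fin n) : ℕ) : ℝ)) j
      have h4 : (((r i : Fin n) : ℕ) : ℝ) = (s : ℝ) - (((t i : Fin n) : ℕ) : ℝ) := by
        have h5 : (((t i : Fin n) : ℕ) : ℝ) + (((r i : Fin n) : ℕ) : ℝ) = (s : ℝ) := by
          exact_mod_cast hrs i
        linarith
      rw [h4]
    rw [h2, h3, h1]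
  have hvol := (vol_simplex_eq_iff p hp t r htinj hrinj).2 hvr
  have hEq : T = Finset.univ.image r := by
    refine hS T (Finset.univ.image r) ?_ ?_ hT3 ?_ ?_
    · intro z hz
      exact (Finset.mem_filter.1 (hTS z hz)).1
    · intro z hz
      obtain ⟨i, _, rfl⟩ := Finset.mem_image.1 hz
      exact hrS i
    · rw [Finset.card_image_of_injective _ hrinj, Finset.card_univ, Fintype.card_fin]
    · rw [← htT]
      exact hvol
  have hxT : x ∈ T := hT1 (Finset.mem_singleton_self x)
  rw [hEq] at hxT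
  obtain ⟨i, _, hi⟩ := Finset.mem_image.1 hxT
  have h1 := hrs i
  rw [hi] at h1
  have h2 : t i = y := Fin.ext (by omega)
  have h3 := htm i
  rw [h2] at h3
  exact (Finset.mem_erase.1 (hT2 h3)).1 rfl

theorem up_family (d n : ℕ) (hd : 1 ≤ d) : ∃ H : Fin n → Set (Fin d → ℝ), GenPos H ∧
    ∀ S : Finset (Fin n), DistinctVol H S → S.card ^ 2 ≤ 2 * (d + 1) * n := by
  classical
  obtain ⟨p, hpd⟩ : ∃ p : Fin n → Fin (d + 1) → ℝ, p = fun i : Fin n => pm d (((i : ℕ) : ℝ)) := ⟨_, rfl⟩
  have hp : Good p := by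
    rw [hpd]
    refine good_pm (fun i : Fin n => (((i : ℕ) : ℝ))) ?_
    intro i j hij
    have h : ((i : ℕ) : ℝ) = ((j : ℕ) : ℝ) := hij
    exact Fin.ext (by exact_mod_cast h)
  refine ⟨fun i => Hyp (p i), genPos_of_good p hp ?_, ?_⟩
  · intro i
    refine ⟨⟨0, hd⟩, ?_⟩
    rw [hpd]
    change pm d (((i : ℕ) : ℝ)) (Fin.succ (⟨0, hd⟩ : Fin d)) ≠ 0
    unfold pm
    rw [Fin.cons_succ]
    simp
  · intro S hS
    have h1 : (S ×ˢ S).card = ∑ s ∈ Finset.range (2 * n),
        ((S ×ˢ S).filter fun z => (z.1 : ℕ) + (z.2 : ℕ) = s).card := by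
      refine Finset.card_eq_sum_card_fiberwise ?_
      intro z _
      have h2 := z.1.2
      have h3 := z.2.2
      have h4 : (z.1 : ℕ) + (z.2 : ℕ) < 2 * n := by omega
      exact Finset.mem_coe.2 (Finset.mem_range.2 h4)
    have h2 : ∀ s ∈ Finset.range (2 * n),
        ((S ×ˢ S).filter fun z => (z.1 : ℕ) + (z.2 : ℕ) = s).card ≤ d + 1 := by
      intro s _
      refine le_trans ?_ (Ss_card p hpd hp S hS s)
      refine Finset.card_le_card_of_injOn (fun z => z.1) ?_ ?_
      · intro z hz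
        obtain ⟨h3, h4⟩ := Finset.mem_filter.1 hz
        obtain ⟨h5, h6⟩ := Finset.mem_product.1 h3
        exact Finset.mem_coe.2 (Finset.mem_filter.2 ⟨h5, z.2, h6, h4⟩)
      · intro z hz w hw hzw
        have h3 := (Finset.mem_filter.1 hz).2
        have h4 := (Finset.mem_filter.1 hw).2
        have h5 : z.1 = w.1 := hzw
        rw [h5] at h3
        exact Prod.ext h5 (Fin.ext (by omega))
    have h3 := Finset.sum_le_card_nsmul _ _ _ h2
    rw [Finset.card_range, smul_eq_mul, ← h1, Finset.card_product] at h3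
    calc S.card ^ 2 = S.card * S.card := by ring
      _ ≤ 2 * n * (d + 1) := h3
      _ = 2 * (d + 1) * n := by ring

end Pool.Agent.DSV
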