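import Pool.Agent.DSV.Low
import Pool.Agent.DSV.Up

/-!
# DSV, module Fin: the bounds for `D d n`
-/

namespace Pool.Agent.DSV

/-- the set whose supremum is `D d n` is bounded, by the moment curve family -/
theorem bdd_set (d n : ℕ) (hd : 1 ≤ d) (k : ℕ)
    (hk : ∀ H : Fin n → Set (Fin d → ℝ), GenPos H →
      ∃ S : Finset (Fin n), S.card = k ∧ DistinctVol H S) : k ^ 2 ≤ 2 * (d + 1) * n := by
  obtain ⟨H, hH, h⟩ := up_family d n hd
  obtain ⟨S, hS, hD⟩ := hk H hH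
  rw [← hS]
  exact h S hD

theorem bddAbove_set (d n : ℕ) (hd : 1 ≤ d) :
    BddAbove {k | ∀ H : Fin n → Set (Fin d → ℝ), GenPos H →
      ∃ S : Finset (Fin n), S.card = k ∧ DistinctVol H S} := by
  refine ⟨2 * (d + 1) * n, fun k hk => ?_⟩
  have h := bdd_set d n hd k hk
  rcases Nat.eq_zero_or_pos k with h0 | h0
  · rw [h0]
    exact Nat.zero_le _
  · calc k = k * 1 := (mul_one k).symm
      _ ≤ k * k := Nat.mul_le_mul_left k h0
      _ = k ^ 2 := (sq k).symm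
      _ ≤ _ := h

theorem D_mem (d n : ℕ) (hd : 1 ≤ d) : ∀ H : Fin n → Set (Fin d → ℝ), GenPos H →
      ∃ S : Finset (Fin n), S.card = D d n ∧ DistinctVol H S := by
  have hne : {k | ∀ H : Fin n → Set (Fin d → ℝ), GenPos H →
      ∃ S : Finset (Fin n), S.card = k ∧ DistinctVol H S}.Nonempty := by
    refine ⟨0, fun H _ => ⟨∅, rfl, ?_⟩⟩
    intro A B hA _ hAc _ _
    rw [Finset.subset_empty.1 hA] at hAc
    simp at hAc
  exact Nat.sSup_mem hne (bddAbove_set d n hd)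

theorem D_upper (d n : ℕ) (hd : 1 ≤ d) : (D d n) ^ 2 ≤ 2 * (d + 1) * n :=
  bdd_set d n hd _ (D_mem d n hd)

theorem distinct_mono {d n : ℕ} {H : Fin n → Set (Fin d → ℝ)} {S S' : Finset (Fin n)}
    (h : S' ⊆ S) (hS : DistinctVol H S) : DistinctVol H S' := fun A B hA hB =>
  hS A B (hA.trans h) (hB.trans h)

theorem D_lower (d : ℕ) (hd : 2 ≤ d) : ∃ c : ℝ, 0 < c ∧ ∀ n : ℕ, 1 ≤ n →
    c * (n : ℝ) ^ (1 / (d * (2 * d + 1)) : ℝ) ≤ D d n := by
  obtain ⟨c, hc, h⟩ := low_family d hd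
  refine ⟨c, hc, fun n hn => ?_⟩
  set k := ⌈c * (n : ℝ) ^ (1 / (d * (2 * d + 1)) : ℝ)⌉₊ with hk
  have hmem : k ∈ {k | ∀ H : Fin n → Set (Fin d → ℝ), GenPos H →
      ∃ S : Finset (Fin n), S.card = k ∧ DistinctVol H S} := by
    intro H hH
    obtain ⟨S, hS, hD⟩ := h n hn H hH
    have hkS : k ≤ S.card := Nat.ceil_le.2 hS
    obtain ⟨S', hS', hc'⟩ := Finset.exists_subset_card_eq hkS
    exact ⟨S', hc', distinct_mono hS' hD⟩
  have h2 : k ≤ D d n := le_csSup (bddAbove_set d n (by omega)) hmem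
  calc c * (n : ℝ) ^ (1 / (d * (2 * d + 1)) : ℝ) ≤ (k : ℝ) := Nat.le_ceil _
    _ ≤ D d n := by exact_mod_cast h2

end Pool.Agent.DSV
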