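import Pool.Agent.DSV.Defs

/-!
# DSV, module Gp: general position in terms of coefficient vectors

PROOF.  `exists_good`: write `H i = {x | ∑ a j x j = b}` and take `r i = Fin.cons b a` (`a ≠ 0`).  `Good r`:
if `t : Fin d → Fin n` is injective and the matrix of the normals is singular, take `w ≠ 0` in its kernel
(`Matrix.exists_mulVec_eq_zero_iff`); for the common point `x` of the hyperplanes of
`T = Finset.univ.image t`, `x + w` is another one, against uniqueness.  If `t : Fin (d + 1) → Fin n` is injective and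
`Mt r t` is singular, take `c ≠ 0` with `Mt r t *ᵥ c = 0`; if `c 0 ≠ 0` the point `x j = - c (j + 1) / c 0` lies on all
`d + 1` hyperplanes, contradiction; if `c 0 = 0` then `c ∘ succ ≠ 0` is in the kernel of the normals of
`t ∘ Fin.castSucc` (say), contradiction with the first part.  Normalisation: there is `u : Fin (d + 1) → ℝ` with
`∑ j, u j * r i j ≠ 0` for all `i` (a finite union of proper subspaces is not everything:
`Subspace.biUnion_ne_univ_of_top_nmem`-type lemma, or take `u j = s ^ j` with `s` outside the finitely many roots of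
the nonzero polynomials `∑ j, r i j * X ^ j`); put `p i = (∑ j, u j * r i j)⁻¹ • r i`: this does not change the
hyperplane, and `Good p` follows from `Good r` (a row of the matrix is multiplied by a nonzero number,
`Matrix.det_mul_column`).

`genPos_of_good`: for `T` with `d` elements write `T = univ.image t` with `t` injective
(`Finset.orderEmbOfFin`): the linear system has a unique solution as its determinant is nonzero.  `T` with
`d + 1` elements and a common point `x`: the vector `c = (-1, x)` (`Fin.cons (-1) x`) satisfies `Mt p t *ᵥ c = 0`,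
`c ≠ 0`, against `det ≠ 0`.
-/

namespace Pool.Agent.DSV

open MeasureTheory

private theorem gp_exists_u {m n : ℕ} (r : Fin n → Fin m → ℝ) (h : ∀ i, ∃ j, r i j ≠ 0) :
    ∃ u : Fin m → ℝ, ∀ i, ∑ j, u j * r i j ≠ 0 := by
  classical
  set P : Fin n → Polynomial ℝ := fun i =>
    ∑ j : Fin m, Polynomial.C (r i j) * Polynomial.X ^ (j : ℕ) with hP
  have hcoef : ∀ i (j : Fin m), (P i).coeff (j : ℕ) = r i j := by
    intro i j
    rw [hP]
    simp only [Polynomial.finsetSum_coeff, Polynomial.coeff_C_mul_X_pow]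
    rw [Finset.sum_eq_single j]
    · simp
    · intro k _ hk
      rw [if_neg]
      intro h'
      exact hk (Fin.ext h').symm
    · simp
  have hne : ∀ i, P i ≠ 0 := by
    intro i h0
    obtain ⟨j, hj⟩ := h i
    apply hj
    rw [← hcoef i j, h0, Polynomial.coeff_zero]
  have hprod : (∏ i, P i) ≠ 0 := Finset.prod_ne_zero_iff.2 fun i _ => hne i
  obtain ⟨s, hs⟩ : ∃ s : ℝ, Polynomial.eval s (∏ i, P i) ≠ 0 := by
    by_contra hcon
    push Not at hcon
    exact hprod (Polynomial.funext fun s => by rw [hcon s, Polynomial.eval_zero])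
  refine ⟨fun j => s ^ (j : ℕ), fun i h0 => hs ?_⟩
  rw [Polynomial.eval_prod]
  apply Finset.prod_eq_zero (Finset.mem_univ i)
  rw [hP, ← h0]
  simp only [Polynomial.eval_finsetSum, Polynomial.eval_mul, Polynomial.eval_C,
    Polynomial.eval_pow, Polynomial.eval_X]
  exact Finset.sum_congr rfl fun j _ => mul_comm _ _

private theorem gp_hyp_cons {d : ℕ} (b : ℝ) (a : Fin d → ℝ) :
    Hyp (Fin.cons b a : Fin (d + 1) → ℝ) = {x | ∑ j, a j * x j = b} := by
  unfold Hyp
  simp only [Fin.cons_succ, Fin.cons_zero]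

private theorem gp_good_of {d n : ℕ} (r : Fin n → Fin (d + 1) → ℝ)
    (h1 : ∀ T : Finset (Fin n), T.card = d → ∃! x, ∀ i ∈ T, x ∈ Hyp (r i))
    (h2 : ∀ T : Finset (Fin n), T.card = d + 1 → ¬ ∃ x, ∀ i ∈ T, x ∈ Hyp (r i)) : Good r := by
  classical
  have part2 : ∀ t : Fin d → Fin n, Function.Injective t →
      (Matrix.of fun i j : Fin d => r (t i) (Fin.succ j)).det ≠ 0 := by
    intro t ht hdet
    obtain ⟨w, hw, hw0⟩ := Matrix.exists_mulVec_eq_zero_iff.2 hdet
    obtain ⟨x, hx, huniq⟩ := h1 (Finset.univ.image t)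
      (by rw [Finset.card_image_of_injective _ ht, Finset.card_univ, Fintype.card_fin])
    apply hw
    have hy : x + w = x := by
      apply huniq
      intro i hi
      obtain ⟨k, -, rfl⟩ := Finset.mem_image.1 hi
      have e1 : ∑ j, r (t k) (Fin.succ j) * x j = r (t k) 0 := hx (t k) hi
      have e2 : ∑ j, r (t k) (Fin.succ j) * w j = 0 := congrFun hw0 k
      show ∑ j, r (t k) (Fin.succ j) * (x + w) j = r (t k) 0
      simp only [Pi.add_apply, mul_add, Finset.sum_add_distrib]
      rw [e1, e2, add_zero]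
    exact (add_eq_left).1 hy
  refine ⟨?_, part2⟩
  intro t ht hdet
  obtain ⟨c, hc, hc0⟩ := Matrix.exists_mulVec_eq_zero_iff.2 hdet
  have hk : ∀ k, r (t k) 0 * c 0 + ∑ j : Fin d, r (t k) (Fin.succ j) * c (Fin.succ j) = 0 := by
    intro k
    have := congrFun hc0 k
    rw [← Fin.sum_univ_succ (fun j => r (t k) j * c j)]
    exact this
  by_cases h0 : c 0 = 0
  · have hcs : (fun j : Fin d => c (Fin.succ j)) ≠ 0 := by
      intro hz
      apply hc
      funext j
      refine Fin.cases ?_ (fun j => ?_) j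
      · exact h0
      · exact congrFun hz j
    refine part2 (fun k => t k.castSucc)
      (fun a b hab => Fin.castSucc_injective d (ht hab)) ?_
    apply Matrix.exists_mulVec_eq_zero_iff.1
    refine ⟨_, hcs, ?_⟩
    funext k
    have := hk k.castSucc
    rw [h0, mul_zero, zero_add] at this
    exact this
  · refine h2 (Finset.univ.image t)
      (by rw [Finset.card_image_of_injective _ ht, Finset.card_univ, Fintype.card_fin]) ?_
    refine ⟨fun j => -(c (Fin.succ j)) / c 0, ?_⟩
    intro i hi
    obtain ⟨k, -, rfl⟩ := Finset.mem_image.1 hi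
    show ∑ j, r (t k) (Fin.succ j) * (-(c (Fin.succ j)) / c 0) = r (t k) 0
    have e : ∑ j, r (t k) (Fin.succ j) * (-(c (Fin.succ j)) / c 0) =
        -(∑ j, r (t k) (Fin.succ j) * c (Fin.succ j)) / c 0 := by
      rw [← Finset.sum_neg_distrib, Finset.sum_div]
      exact Finset.sum_congr rfl fun j _ => by ring
    rw [e, div_eq_iff h0]
    have := hk k
    linarith

theorem exists_good {d n : ℕ} (H : Fin n → Set (Fin d → ℝ)) (hH : GenPos H) :
    ∃ p : Fin n → Fin (d + 1) → ℝ, Good p ∧ (∀ i, H i = Hyp (p i)) ∧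
      ∃ u : Fin (d + 1) → ℝ, ∀ i, ∑ j, u j * p i j = 1 := by
  classical
  obtain ⟨h0, h1, h2⟩ := hH
  choose a b ha hab using h0
  set r : Fin n → Fin (d + 1) → ℝ := fun i => Fin.cons (b i) (a i) with hr
  have hHr : ∀ i, H i = Hyp (r i) := by
    intro i
    rw [hab i, hr]
    exact (gp_hyp_cons (b i) (a i)).symm
  have hgood : Good r := by
    apply gp_good_of
    · intro T hT
      have := h1 T hT
      simpa only [hHr] using this
    · intro T hT
      have := h2 T hT
      simpa only [hHr] using this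
  have hrne : ∀ i, ∃ j, r i j ≠ 0 := by
    intro i
    by_contra hcon
    push Not at hcon
    apply ha i
    funext j
    exact hcon (Fin.succ j)
  obtain ⟨u, hu⟩ := gp_exists_u r hrne
  refine ⟨fun i j => (∑ k, u k * r i k)⁻¹ * r i j, ⟨?_, ?_⟩, ?_, u, ?_⟩
  · intro t ht
    have e : Mt (fun i j => (∑ k, u k * r i k)⁻¹ * r i j) t =
        Matrix.of fun i j => (fun i => (∑ k, u k * r (t i) k)⁻¹) i * (Mt r t) i j := rfl
    rw [e, Matrix.det_mul_column]
    exact mul_ne_zero (Finset.prod_ne_zero_iff.2 fun i _ => inv_ne_zero (hu (t i)))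
      (hgood.1 t ht)
  · intro t ht
    have e : (Matrix.of fun i j : Fin d => (∑ k, u k * r (t i) k)⁻¹ * r (t i) (Fin.succ j)) =
        Matrix.of fun i j => (fun i => (∑ k, u k * r (t i) k)⁻¹) i *
          (Matrix.of fun i j : Fin d => r (t i) (Fin.succ j)) i j := rfl
    rw [e, Matrix.det_mul_column]
    exact mul_ne_zero (Finset.prod_ne_zero_iff.2 fun i _ => inv_ne_zero (hu (t i)))
      (hgood.2 t ht)
  · intro i
    rw [hHr i]
    ext x
    show (∑ j, r i (Fin.succ j) * x j = r i 0) ↔
      (∑ j, (∑ k, u k * r i k)⁻¹ * r i (Fin.succ j) * x j = (∑ k, u k * r i k)⁻¹ * r i 0)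
    have e : ∑ j, (∑ k, u k * r i k)⁻¹ * r i (Fin.succ j) * x j =
        (∑ k, u k * r i k)⁻¹ * ∑ j, r i (Fin.succ j) * x j := by
      rw [Finset.mul_sum]
      exact Finset.sum_congr rfl fun j _ => mul_assoc _ _ _
    rw [e]
    exact (mul_right_inj' (inv_ne_zero (hu i))).symm
  · intro i
    have e : ∑ j, u j * ((∑ k, u k * r i k)⁻¹ * r i j) =
        (∑ k, u k * r i k)⁻¹ * ∑ j, u j * r i j := by
      rw [Finset.mul_sum]
      exact Finset.sum_congr rfl fun j _ => by ring
    show ∑ j, u j * ((∑ k, u k * r i k)⁻¹ * r i j) = 1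
    rw [e, inv_mul_cancel₀ (hu i)]

theorem genPos_of_good {d n : ℕ} (p : Fin n → Fin (d + 1) → ℝ) (hp : Good p)
    (h0 : ∀ i, ∃ j : Fin d, p i (Fin.succ j) ≠ 0) : GenPos fun i => Hyp (p i) := by
  classical
  refine ⟨?_, ?_, ?_⟩
  · intro i
    refine ⟨fun j => p i (Fin.succ j), p i 0, ?_, rfl⟩
    intro hz
    obtain ⟨j, hj⟩ := h0 i
    exact hj (congrFun hz j)
  · intro T hT
    set t : Fin d → Fin n := fun k => T.orderEmbOfFin hT k with ht
    have htinj : Function.Injective t := (T.orderEmbOfFin hT).injective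
    have himg : ∀ i ∈ T, ∃ k, t k = i := by
      intro i hi
      have : i ∈ Set.range (T.orderEmbOfFin hT) := by
        rw [Finset.range_orderEmbOfFin]
        exact hi
      exact this
    have hmem : ∀ k, t k ∈ T := fun k => Finset.orderEmbOfFin_mem T hT k
    set M : Matrix (Fin d) (Fin d) ℝ := Matrix.of fun i j : Fin d => p (t i) (Fin.succ j) with hM
    have hdet : IsUnit M.det := isUnit_iff_ne_zero.2 (hp.2 t htinj)
    refine ⟨M⁻¹.mulVec fun i => p (t i) 0, ?_, ?_⟩
    · intro i hi
      obtain ⟨k, rfl⟩ := himg i hi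
      have e : M.mulVec (M⁻¹.mulVec fun i => p (t i) 0) = fun i => p (t i) 0 := by
        rw [Matrix.mulVec_mulVec, Matrix.mul_nonsing_inv _ hdet, Matrix.one_mulVec]
      exact congrFun e k
    · intro y hy
      have e : M.mulVec y = fun i => p (t i) 0 := by
        funext k
        exact hy (t k) (hmem k)
      rw [← e, Matrix.mulVec_mulVec, Matrix.nonsing_inv_mul _ hdet, Matrix.one_mulVec]
  · intro T hT hx
    obtain ⟨x, hx⟩ := hx
    set t : Fin (d + 1) → Fin n := fun k => T.orderEmbOfFin hT k with ht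
    have htinj : Function.Injective t := (T.orderEmbOfFin hT).injective
    have hmem : ∀ k, t k ∈ T := fun k => Finset.orderEmbOfFin_mem T hT k
    apply hp.1 t htinj
    apply Matrix.exists_mulVec_eq_zero_iff.1
    refine ⟨(Fin.cons (-1) x : Fin (d + 1) → ℝ), ?_, ?_⟩
    · intro hz
      have := congrFun hz 0
      rw [Fin.cons_zero] at this
      exact absurd this (by norm_num)
    · funext k
      show ∑ j, p (t k) j * (Fin.cons (-1) x : Fin (d + 1) → ℝ) j = 0
      rw [Fin.sum_univ_succ]
      simp only [Fin.cons_zero, Fin.cons_succ]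
      have e : ∑ j, p (t k) (Fin.succ j) * x j = p (t k) 0 := hx (t k) (hmem k)
      rw [e]
      ring

end Pool.Agent.DSV
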