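import Pool.Agent.DSV.Defs

/-!
# DSV, module HfA: Hilbert functions of finite sets (first part)

`rs Q` is the restriction to `Q` (extended by zero), `hf V Q t` the dimension of the space of the restrictions to
`Q` of the functions in `V ^ t` (`V` a space of functions on the finite set `ι`, `V ^ t` the power in the algebra
`ι → ℝ`, spanned by the products of `t` functions of `V`).

PROOFS.
`pow_mono`: `V ^ s ≤ V ^ t` for `s ≤ t` as `1 ∈ V` (`Submodule.one_le`, `pow_le_pow_right'`).
`hf_mono`: from `pow_mono` and `Submodule.finrank_mono`.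
`hf_sub`: `rs Q' = rs Q' ∘ rs Q`, `Submodule.finrank_map_le`.
`hf_le`: `V = ℝ 1 + U` with `U` spanned by `d` functions `f k` (a complement of `ℝ 1` in `V`, or: extend `1` to a basis;
or by hand: `V` is spanned by the `d + 1` functions `i ↦ p i j` and `1 = ∑ u j p j`, some `u j0 ≠ 0`, hence `V` is
spanned by `1` and the `p j`, `j ≠ j0`).  By induction on `t`, `V ^ t` is contained in the span of the functions
`∏ k, f k ^ m k`, `m : Fin d → ℕ` with all `m k ≤ t`; there are `(t + 1) ^ d` of them (`finrank_range_le_card`).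
`hf_drop`: let `X = (V ^ t).map (rs Q)`.  The restriction `rs Q'` maps `X` onto `(V ^ t).map (rs Q')`; its kernel
contains the functions `rs Q (p * g)`, `g ∈ V ^ (t - e)`, and `rs Q g ↦ rs Q (p * g)` is injective on
`(V ^ (t - e)).map (rs Q)` by the hypothesis on `Q`.  Rank-nullity.
`hf_card`: if `Q` had `C + 1` distinct elements `q 0, ..., q C` (`C = hf V Q t`): for `i ≠ j` there is `l ∈ V` with
`l (q i) = 1`, `l (q j) = 0` (as `V` separates the points and contains `1`), and `g i = ∏_{j ≠ i} l i j ∈ V ^ C ≤ V ^ t`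
satisfies `g i (q j) = 0` iff `i ≠ j`; so the restrictions of the `g i` to `Q` are `C + 1` linearly independent
functions, contradiction.
-/

set_option linter.unusedSectionVars false

namespace Pool.Agent.DSV

/-- restriction to `Q`, extended by zero -/
noncomputable def rs {ι : Type*} [DecidableEq ι] (Q : Finset ι) : (ι → ℝ) →ₗ[ℝ] (ι → ℝ) where
  toFun f i := if i ∈ Q then f i else 0
  map_add' f g := by
    funext i
    by_cases h : i ∈ Q <;> simp [h]
  map_smul' c f := by
    funext i
    by_cases h : i ∈ Q <;> simp [h]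

/-- the Hilbert function -/
noncomputable def hf {ι : Type*} [Fintype ι] [DecidableEq ι] (V : Submodule ℝ (ι → ℝ))
    (Q : Finset ι) (t : ℕ) : ℕ := Module.finrank ℝ ((V ^ t).map (rs Q))

variable {ι : Type*} [Fintype ι] [DecidableEq ι]

theorem pow_mono {V : Submodule ℝ (ι → ℝ)} (h1 : (1 : ι → ℝ) ∈ V) {s t : ℕ} (h : s ≤ t) :
    V ^ s ≤ V ^ t :=
  pow_le_pow_right' (Submodule.one_le.2 h1) h

theorem hf_mono {V : Submodule ℝ (ι → ℝ)} (h1 : (1 : ι → ℝ) ∈ V) (Q : Finset ι) {s t : ℕ}
    (h : s ≤ t) : hf V Q s ≤ hf V Q t :=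
  Submodule.finrank_mono (Submodule.map_mono (pow_mono h1 h))

private theorem rs_apply (Q : Finset ι) (f : ι → ℝ) (i : ι) :
    rs Q f i = if i ∈ Q then f i else 0 := rfl

private theorem rs_mem {Q : Finset ι} (f : ι → ℝ) {i : ι} (h : i ∈ Q) : rs Q f i = f i := by
  rw [rs_apply, if_pos h]

private theorem rs_rs {Q' Q : Finset ι} (h : Q' ⊆ Q) (f : ι → ℝ) : rs Q' (rs Q f) = rs Q' f := by
  funext i
  show (if i ∈ Q' then (if i ∈ Q then f i else 0) else 0) = if i ∈ Q' then f i else 0
  by_cases hi : i ∈ Q'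
  · rw [if_pos hi, if_pos hi, if_pos (h hi)]
  · rw [if_neg hi, if_neg hi]

private theorem map_map_rs {Q' Q : Finset ι} (h : Q' ⊆ Q) (X : Submodule ℝ (ι → ℝ)) :
    (X.map (rs Q)).map (rs Q') = X.map (rs Q') := by
  rw [← Submodule.map_comp]
  congr 1
  exact LinearMap.ext fun f => rs_rs h f

theorem hf_sub (V : Submodule ℝ (ι → ℝ)) {Q' Q : Finset ι} (h : Q' ⊆ Q) (t : ℕ) :
    hf V Q' t ≤ hf V Q t := by
  unfold hf
  rw [← map_map_rs h]
  exact Submodule.finrank_map_le _ _

/-- monomials with exponents at most `t` -/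
private def mon {d : ℕ} (f : Fin d → ι → ℝ) (t : ℕ) (m : Fin d → Fin (t + 1)) : ι → ℝ :=
  ∏ k, f k ^ (m k : ℕ)

private theorem mon_mem {d : ℕ} (f : Fin d → ι → ℝ) {t : ℕ} (m : Fin d → ℕ) (hm : ∀ k, m k ≤ t) :
    (∏ k, f k ^ m k) ∈ Submodule.span ℝ (Set.range (mon f t)) :=
  Submodule.subset_span ⟨fun k => ⟨m k, Nat.lt_succ_of_le (hm k)⟩, rfl⟩

private theorem pow_le_mon {d : ℕ} (f : Fin d → ι → ℝ) {V : Submodule ℝ (ι → ℝ)}
    (hV : V ≤ Submodule.span ℝ (insert 1 (Set.range f))) (t : ℕ) :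
    V ^ t ≤ Submodule.span ℝ (Set.range (mon f t)) := by
  induction t with
  | zero =>
    rw [pow_zero, Submodule.one_le]
    have := mon_mem f (t := 0) (fun _ => 0) (fun _ => le_rfl)
    simpa using this
  | succ t ih =>
    rw [pow_succ]
    refine (mul_le_mul' ih hV).trans ?_
    rw [Submodule.span_mul_span, Submodule.span_le]
    rintro _ ⟨_, ⟨m, rfl⟩, b, hb, rfl⟩
    rcases hb with rfl | ⟨k0, rfl⟩
    · show mon f t m * 1 ∈ _
      rw [mul_one]
      exact mon_mem f (fun k => (m k : ℕ)) fun k => (Nat.lt_succ_iff.1 (m k).2).trans (Nat.le_succ t)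
    · show mon f t m * f k0 ∈ _
      have h1 : mon f t m * f k0 = ∏ k, f k ^ ((m k : ℕ) + if k = k0 then 1 else 0) := by
        have h2 : f k0 = ∏ k, f k ^ (if k = k0 then 1 else 0) := by
          rw [Finset.prod_eq_single k0]
          · rw [if_pos rfl, pow_one]
          · intro k _ hk
            rw [if_neg hk, pow_zero]
          · intro h
            exact absurd (Finset.mem_univ _) h
        conv_lhs => rw [h2]
        unfold mon
        rw [← Finset.prod_mul_distrib]
        exact Finset.prod_congr rfl fun k _ => (pow_add _ _ _).symm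
      rw [h1]
      refine mon_mem f _ fun k => ?_
      have := Nat.lt_succ_iff.1 (m k).2
      split_ifs <;> omega

theorem hf_le {d : ℕ} (p : ι → Fin (d + 1) → ℝ) (u : Fin (d + 1) → ℝ)
    (hu : ∀ i, ∑ j, u j * p i j = 1) (Q : Finset ι) (t : ℕ) : hf (Vs p) Q t ≤ (t + 1) ^ d := by
  rcases isEmpty_or_nonempty ι with hι | ⟨⟨i0⟩⟩
  · unfold hf
    rw [Module.finrank_zero_of_subsingleton]
    exact Nat.zero_le _
  · obtain ⟨j0, hj0⟩ : ∃ j0, u j0 ≠ 0 := by
      by_contra h
      push Not at h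
      have := hu i0
      simp [h] at this
    set f : Fin d → ι → ℝ := fun k i => p i (j0.succAbove k) with hf0
    have hV : Vs p ≤ Submodule.span ℝ (insert 1 (Set.range f)) := by
      unfold Vs
      rw [Submodule.span_le]
      rintro _ ⟨j, rfl⟩
      by_cases hj : j = j0
      · subst hj
        have h1 : (fun i => p i j) = (u j)⁻¹ • ((1 : ι → ℝ) - ∑ k, u (j.succAbove k) • f k) := by
          funext i
          have h2 := hu i
          rw [Fin.sum_univ_succAbove _ j] at h2
          simp only [Pi.smul_apply, Pi.sub_apply, Pi.one_apply, Finset.sum_apply, smul_eq_mul, hf0]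
          field_simp
          linarith
        show (fun i => p i j) ∈ Submodule.span ℝ (insert 1 (Set.range f))
        rw [h1]
        refine Submodule.smul_mem _ _ (Submodule.sub_mem _
          (Submodule.subset_span (Set.mem_insert _ _)) (Submodule.sum_mem _ fun k _ =>
            Submodule.smul_mem _ _ (Submodule.subset_span (Set.mem_insert_of_mem _ ⟨k, rfl⟩))))
      · obtain ⟨k, hk⟩ := Fin.exists_succAbove_eq hj
        refine Submodule.subset_span (Set.mem_insert_of_mem _ ⟨k, ?_⟩)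
        funext i
        simp only [hf0, hk]
    have h1 := Submodule.finrank_mono (pow_le_mon f hV t)
    have h2 := finrank_range_le_card (R := ℝ) (mon f t)
    unfold Set.finrank at h2
    simp only [Fintype.card_pi, Fintype.card_fin, Finset.prod_const, Finset.card_univ] at h2
    exact (Submodule.finrank_map_le _ _).trans (h1.trans h2)

theorem hf_drop {V : Submodule ℝ (ι → ℝ)} {e t : ℕ} (het : e ≤ t) {Q : Finset ι} {p : ι → ℝ}
    (hp : p ∈ V ^ e) (hQ : ∀ g ∈ V ^ (t - e), (∀ q ∈ Q, p q * g q = 0) → ∀ q ∈ Q, g q = 0) :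
    hf V (Q.filter fun q => p q = 0) t + hf V Q (t - e) ≤ hf V Q t := by
  set Q' := Q.filter fun q => p q = 0 with hQ'
  set X := (V ^ t).map (rs Q) with hX
  set Y := (V ^ (t - e)).map (rs Q) with hY
  have hsub : Q' ⊆ Q := Finset.filter_subset _ _
  have hr := LinearMap.finrank_range_add_finrank_ker ((rs Q').domRestrict X)
  rw [LinearMap.range_domRestrict, hX, map_map_rs hsub, ← hX] at hr
  -- multiplication by `p`
  set μ : Y →ₗ[ℝ] (ι → ℝ) := (LinearMap.mulLeft ℝ p).domRestrict Y with hμ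
  have hmem : ∀ y : Y, μ y ∈ X := by
    rintro ⟨y, g, hg, rfl⟩
    refine ⟨p * g, ?_, ?_⟩
    · have h1 := Submodule.mul_mem_mul hp hg
      rw [← pow_add, Nat.add_sub_cancel' het] at h1
      exact h1
    · funext i
      show rs Q (p * g) i = p i * rs Q g i
      rw [rs_apply, rs_apply]
      by_cases hi : i ∈ Q
      · rw [if_pos hi, if_pos hi]; rfl
      · rw [if_neg hi, if_neg hi, mul_zero]
  have hker : ∀ y : Y, (⟨μ y, hmem y⟩ : X) ∈ LinearMap.ker ((rs Q').domRestrict X) := by
    intro y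
    rw [LinearMap.mem_ker]
    funext i
    show rs Q' (p * (y : ι → ℝ)) i = 0
    rw [rs_apply]
    by_cases hi : i ∈ Q'
    · rw [if_pos hi]
      show p i * (y : ι → ℝ) i = 0
      rw [(Finset.mem_filter.1 hi).2, zero_mul]
    · rw [if_neg hi]
  have hinj : ∀ y : Y, μ y = 0 → y = 0 := by
    rintro ⟨y, g, hg, rfl⟩ h0
    have h1 : ∀ q ∈ Q, p q * g q = 0 := by
      intro q hq
      have h2 := congrFun h0 q
      have h3 : p q * rs Q g q = 0 := h2
      rwa [rs_mem g hq] at h3
    have h4 := hQ g hg h1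
    apply Subtype.ext
    funext i
    show rs Q g i = 0
    rw [rs_apply]
    by_cases hi : i ∈ Q
    · rw [if_pos hi, h4 i hi]
    · rw [if_neg hi]
  have hle : Module.finrank ℝ Y ≤ Module.finrank ℝ (LinearMap.ker ((rs Q').domRestrict X)) := by
    refine LinearMap.finrank_le_finrank_of_injective (f := LinearMap.codRestrict
      (LinearMap.ker ((rs Q').domRestrict X)) (LinearMap.codRestrict X μ hmem) hker) ?_
    intro y1 y2 hy
    have h2 : μ y1 = μ y2 :=
      congrArg (fun z : LinearMap.ker ((rs Q').domRestrict X) => ((z : X) : ι → ℝ)) hy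
    exact sub_eq_zero.1 (hinj _ (by rw [map_sub, sub_eq_zero]; exact h2))
  unfold hf
  rw [← hX, ← hY]
  omega

private theorem prod_mem_pow {κ : Type*} [DecidableEq κ] {V : Submodule ℝ (ι → ℝ)} (s : Finset κ)
    (l : κ → ι → ℝ) (h : ∀ j ∈ s, l j ∈ V) : (∏ j ∈ s, l j) ∈ V ^ s.card := by
  induction s using Finset.induction_on with
  | empty => simp [Submodule.one_le.1 le_rfl]
  | insert a s ha ih =>
    rw [Finset.prod_insert ha, Finset.card_insert_of_notMem ha, pow_succ']
    exact Submodule.mul_mem_mul (h a (Finset.mem_insert_self _ _))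
      (ih fun j hj => h j (Finset.mem_insert_of_mem hj))

theorem hf_card {V : Submodule ℝ (ι → ℝ)} (h1 : (1 : ι → ℝ) ∈ V)
    (hs : ∀ i j : ι, i ≠ j → ∃ f ∈ V, f i ≠ f j) (Q : Finset ι) (t : ℕ) (h : hf V Q t ≤ t) :
    Q.card ≤ hf V Q t := by
  by_contra hcon
  push Not at hcon
  obtain ⟨Q0, hQ0, hc⟩ := Finset.exists_subset_card_eq (Nat.succ_le_of_lt hcon)
  have hl : ∀ i j : ι, ∃ f ∈ V, i ≠ j → f i = 1 ∧ f j = 0 := by
    intro i j
    by_cases hij : i = j
    · exact ⟨1, h1, fun h => absurd hij h⟩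
    · obtain ⟨f, hf, hne⟩ := hs i j hij
      refine ⟨(f i - f j)⁻¹ • (f - f j • (1 : ι → ℝ)),
        Submodule.smul_mem _ _ (Submodule.sub_mem _ hf (Submodule.smul_mem _ _ h1)), fun _ => ?_⟩
      constructor
      · simp only [Pi.smul_apply, Pi.sub_apply, Pi.one_apply, smul_eq_mul, mul_one]
        exact inv_mul_cancel₀ (sub_ne_zero.2 hne)
      · simp only [Pi.smul_apply, Pi.sub_apply, Pi.one_apply, smul_eq_mul, mul_one, sub_self,
          mul_zero]
  choose l hlV hl1 using hl
  set g : ι → ι → ℝ := fun i => ∏ j ∈ Q0.erase i, l i j with hg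
  have hgV : ∀ i ∈ Q0, g i ∈ V ^ t := by
    intro i hi
    have h2 := prod_mem_pow (V := V) (Q0.erase i) (l i) fun j _ => hlV i j
    rw [Finset.card_erase_of_mem hi, hc, Nat.succ_sub_one] at h2
    exact pow_mono h1 h h2
  have hg1 : ∀ i ∈ Q0, g i i = 1 := by
    intro i hi
    simp only [hg, Finset.prod_apply]
    refine Finset.prod_eq_one fun j hj => ?_
    exact (hl1 i j (Finset.ne_of_mem_erase hj).symm).1
  have hg0 : ∀ i ∈ Q0, ∀ j ∈ Q0, i ≠ j → g i j = 0 := by
    intro i hi j hj hij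
    simp only [hg, Finset.prod_apply]
    exact Finset.prod_eq_zero (Finset.mem_erase.2 ⟨hij.symm, hj⟩) (hl1 i j hij).2
  have hli : LinearIndependent ℝ (fun i : Q0 => rs Q (g i)) := by
    rw [Fintype.linearIndependent_iff]
    intro c hc0 j
    have h2 := congrFun hc0 (j : ι)
    simp only [Finset.sum_apply, Pi.smul_apply, smul_eq_mul, Pi.zero_apply] at h2
    rw [Finset.sum_eq_single j] at h2
    · rw [rs_mem _ (hQ0 j.2), hg1 _ j.2, mul_one] at h2
      exact h2
    · intro i _ hij
      rw [rs_mem _ (hQ0 j.2), hg0 _ i.2 _ j.2 (fun h => hij (Subtype.ext h)), mul_zero]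
    · intro h
      exact absurd (Finset.mem_univ _) h
  have h3 := finrank_span_eq_card hli
  have h4 : Submodule.span ℝ (Set.range fun i : Q0 => rs Q (g i)) ≤ (V ^ t).map (rs Q) := by
    rw [Submodule.span_le]
    rintro _ ⟨i, rfl⟩
    exact ⟨g i, hgV i i.2, rfl⟩
  have h5 := Submodule.finrank_mono h4
  rw [h3, Fintype.card_coe, hc] at h5
  have h6 : hf V Q t = Module.finrank ℝ ((V ^ t).map (rs Q)) := rfl
  omega

end Pool.Agent.DSV
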