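import Pool.Agent.DSV.HfA

/-!
# DSV, module HfB: prime subsets

`exists_prime`: a large subset `Q` of `P` such that a function of the space `Y` which vanishes on at least half of
`Q` vanishes on all of `Q`.

PROOF.  Strong induction on `N = finrank (Y.map (rs P))` (`P` general): if `P` has the property take `Q = P`.  Otherwise
there is `g ∈ Y` with `P.card ≤ 2 * (P.filter fun q => g q = 0).card` and `g` not zero on all of `P`.  Put
`P' = P.filter fun q => g q = 0`; `finrank (Y.map (rs P')) < finrank (Y.map (rs P))` since `rs P'` maps `Y.map (rs P)` onto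
`Y.map (rs P')` with the nonzero element `rs P g` in its kernel.  `P'` is nonempty.  The induction hypothesis gives
`Q ⊆ P'` with `P'.card ≤ 2 ^ (N - 1) * Q.card`, so `P.card ≤ 2 * P'.card ≤ 2 ^ N * Q.card`.

`telescope`: for a function `f : ℕ → ℕ` monotone and `a` with `a + f (t' - e) ≤ f t'` for all `t' ∈ (t, t + m]`, where
`e ≤ t + 1`: `m * a ≤ e * f (t + m)`: sum the inequalities over `t' = t + 1, ..., t + m`:
`m a + ∑_{s = t + 1 - e}^{t + m - e} f s ≤ ∑_{s = t + 1}^{t + m} f s`; induction on `m`: prove the stronger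
`m * a + ∑ s ∈ Finset.range e, f (t + 1 - e + s) ≤ ∑ s ∈ Finset.range e, f (t + m + 1 - e + s)` (adding the inequality
for `t' = t + m + 1` to the one for `m`), and the right side is at most `e * f (t + m)`.
-/

namespace Pool.Agent.DSV

variable {ι : Type*} [Fintype ι] [DecidableEq ι]

private theorem finrank_drop (Y : Submodule ℝ (ι → ℝ)) (P P' : Finset ι) (hPP : P' ⊆ P) (g : ι → ℝ) (hg : g ∈ Y)
    (hg1 : ∃ q ∈ P, g q ≠ 0) (hg2 : ∀ q ∈ P', g q = 0) :
    Module.finrank ℝ (Y.map (rs P')) < Module.finrank ℝ (Y.map (rs P)) := by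
  have hcomp : ∀ f : ι → ℝ, rs P' (rs P f) = rs P' f := by
    intro f
    funext i
    change (if i ∈ P' then (if i ∈ P then f i else 0) else 0) = if i ∈ P' then f i else 0
    by_cases h : i ∈ P'
    · rw [if_pos h, if_pos (hPP h), if_pos h]
    · rw [if_neg h, if_neg h]
  set X := Y.map (rs P) with hX
  have hXm : Y.map (rs P') = LinearMap.range ((rs P').domRestrict X) := by
    ext f
    constructor
    · rintro ⟨y, hy, rfl⟩
      exact ⟨⟨rs P y, Submodule.mem_map_of_mem hy⟩, hcomp y⟩
    · rintro ⟨⟨x, hx⟩, rfl⟩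
      obtain ⟨y, hy, rfl⟩ := hx
      exact ⟨y, hy, (hcomp y).symm⟩
  have hrk := LinearMap.finrank_range_add_finrank_ker ((rs P').domRestrict X)
  have hpos : 0 < Module.finrank ℝ (LinearMap.ker ((rs P').domRestrict X)) := by
    refine (Module.finrank_pos_iff_exists_ne_zero (R := ℝ) (M := LinearMap.ker ((rs P').domRestrict X))).mpr ?_
    refine ⟨⟨⟨rs P g, Submodule.mem_map_of_mem hg⟩, ?_⟩, ?_⟩
    · rw [LinearMap.mem_ker]
      change rs P' (rs P g) = 0
      rw [hcomp]
      funext i
      change (if i ∈ P' then g i else 0) = 0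
      by_cases h : i ∈ P'
      · rw [if_pos h, hg2 i h]
      · rw [if_neg h]
    · intro h0
      obtain ⟨q, hq, hgq⟩ := hg1
      apply hgq
      have h1 : (rs P g) = 0 := by
        have := congrArg (fun z => ((z : X) : ι → ℝ)) (congrArg (fun z => (z : LinearMap.ker ((rs P').domRestrict X)).1) h0)
        simpa using this
      have h2 := congrFun h1 q
      change (if q ∈ P then g q else 0) = 0 at h2
      rwa [if_pos hq] at h2
  rw [hXm]
  omega

theorem exists_prime (Y : Submodule ℝ (ι → ℝ)) (P : Finset ι) (hP : P.Nonempty) :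
    ∃ Q : Finset ι, Q ⊆ P ∧ Q.Nonempty ∧
      P.card ≤ 2 ^ Module.finrank ℝ (Y.map (rs P)) * Q.card ∧
      ∀ g ∈ Y, Q.card ≤ 2 * (Q.filter fun q => g q = 0).card → ∀ q ∈ Q, g q = 0 := by
  induction hN : Module.finrank ℝ (Y.map (rs P)) using Nat.strong_induction_on generalizing P with
  | _ N ih =>
    by_cases hgood : ∀ g ∈ Y, P.card ≤ 2 * (P.filter fun q => g q = 0).card → ∀ q ∈ P, g q = 0
    · refine ⟨P, subset_rfl, hP, ?_, hgood⟩
      exact Nat.le_mul_of_pos_left _ (Nat.two_pow_pos _)
    · push Not at hgood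
      obtain ⟨g, hg, hcard, q0, hq0, hgq0⟩ := hgood
      set P' := P.filter fun q => g q = 0 with hP'
      have hsub : P' ⊆ P := Finset.filter_subset _ _
      have hne : P'.Nonempty := by
        rw [← Finset.card_pos]
        have := Finset.card_pos.mpr hP
        omega
      have hlt := finrank_drop Y P P' hsub g hg ⟨q0, hq0, hgq0⟩ (fun q hq => (Finset.mem_filter.mp hq).2)
      rw [hN] at hlt
      obtain ⟨Q, hQ1, hQ2, hQ3, hQ4⟩ := ih _ hlt P' hne rfl
      refine ⟨Q, hQ1.trans hsub, hQ2, ?_, hQ4⟩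
      have h1 : 2 ^ (Module.finrank ℝ (Y.map (rs P')) + 1) ≤ 2 ^ N := Nat.pow_le_pow_right (by norm_num) hlt
      calc P.card ≤ 2 * P'.card := hcard
        _ ≤ 2 * (2 ^ Module.finrank ℝ (Y.map (rs P')) * Q.card) := Nat.mul_le_mul_left _ hQ3
        _ = 2 ^ (Module.finrank ℝ (Y.map (rs P')) + 1) * Q.card := by rw [pow_succ]; ring
        _ ≤ 2 ^ N * Q.card := Nat.mul_le_mul_right _ h1

theorem telescope (f : ℕ → ℕ) (hf : Monotone f) (a e t m : ℕ) (he : e ≤ t + 1)
    (h : ∀ s, t < s → s ≤ t + m → a + f (s - e) ≤ f s) : m * a ≤ e * f (t + m) := by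
  have key : ∀ m, (∀ s, t < s → s ≤ t + m → a + f (s - e) ≤ f s) →
      m * a + ∑ s ∈ Finset.range e, f (t + 1 - e + s) ≤ ∑ s ∈ Finset.range e, f (t + m + 1 - e + s) := by
    intro m
    induction m with
    | zero => intro _; simp
    | succ m ih =>
      intro hm
      have h1 := ih (fun s hs1 hs2 => hm s hs1 (by omega))
      have h2 := hm (t + (m + 1)) (by omega) le_rfl
      have h3 : ∑ s ∈ Finset.range (e + 1), f (t + m + 1 - e + s) =
          ∑ s ∈ Finset.range e, f (t + m + 1 - e + s) + f (t + m + 1 - e + e) := Finset.sum_range_succ _ _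
      have h4 : ∑ s ∈ Finset.range (e + 1), f (t + m + 1 - e + s) =
          ∑ s ∈ Finset.range e, f (t + m + 1 - e + (s + 1)) + f (t + m + 1 - e + 0) := Finset.sum_range_succ' _ _
      have h5 : ∑ s ∈ Finset.range e, f (t + m + 1 - e + (s + 1)) = ∑ s ∈ Finset.range e, f (t + (m + 1) + 1 - e + s) := by
        refine Finset.sum_congr rfl (fun s _ => ?_)
        congr 1
        omega
      have h6 : t + m + 1 - e + e = t + (m + 1) := by omega
      have h7 : t + m + 1 - e + 0 = t + (m + 1) - e := by omega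
      rw [h6] at h3
      rw [h5, h7] at h4
      have h8 : (m + 1) * a = m * a + a := by ring
      rw [h8]
      omega
  have h1 := key m h
  have h2 : ∑ s ∈ Finset.range e, f (t + m + 1 - e + s) ≤ e * f (t + m) := by
    have : ∑ s ∈ Finset.range e, f (t + m + 1 - e + s) ≤ ∑ _s ∈ Finset.range e, f (t + m) := by
      refine Finset.sum_le_sum (fun s hs => hf ?_)
      have := Finset.mem_range.mp hs
      omega
    simpa using this
  omega

end Pool.Agent.DSV
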