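import Pool.Agent.DSV.HfB

/-!
# DSV, module RobL: every large family contains a robust subfamily

PROOF of `rob_step` (`claim i`): induction on `i`, with `C` general.
`i = 0`: take `T = C`, `A = C + 1`: `hf V P C ≤ C` gives `P.card ≤ C` (`hf_card`), but `C + 1 ≤ P.card`: contradiction.
Step: given `C`, put `C' = e * C * 2 ^ (i + 1)`, let `T', A'` be the numbers for `i` and `C'`, `T = 2 * T' + 1 + 2 * e`,
`N = C * (T + 1) ^ (i + 1)`, `A = 2 ^ N * (A' + 1)`.  Apply `exists_prime` to `Y = V ^ T` and `P`: `Q ⊆ P` with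
`P.card ≤ 2 ^ N * Q.card` (`finrank (Y.map (rs P)) = hf V P T ≤ N`).  If `Rob (V ^ e) Q ε` then `Q` is as wanted:
`Q.card ≥ P.card / 2 ^ N ≥ ε⁻¹ ^ (i + 1) ≥ ε⁻¹`.  Otherwise there is `g ∈ V ^ e`, not zero on all of `Q`, with more than
`ε Q.card` zeros in `Q`; `P' = Q.filter (g = 0)` has more than `ε Q.card ≥ ε (A' + 1) ε⁻¹ ^ (i + 1) ≥ A' ε⁻¹ ^ i` elements.
For `t ≤ T'` the Hilbert function of `P'` satisfies `hf V P' t ≤ C' (t + 1) ^ i`: for `t < s ≤ t + m`, where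
`t0 = t + e` and `m = t + 1`... precisely: for every `s` with `t + e < s ≤ t + e + (t + 1)` (so `s ≤ T`),
`hf V P' t + hf V Q (s - e) ≤ hf V P' s + hf V Q (s - e) ≤ hf V Q s` by `hf_mono` and `hf_drop` (its hypothesis: if
`g h = 0` on `Q`, `h ∈ V ^ (s - e)`, then `g` or `h` vanishes on at least half of `Q`, both are in `V ^ T`, so one of them
vanishes on all of `Q`; not `g`).  By `telescope` (with `t + e` for `t`, `m = t + 1`):
`(t + 1) * hf V P' t ≤ e * hf V Q (2 t + e + 1) ≤ e * C * (2 t + e + 2) ^ (i + 1)`; as `2 t + e + 2 ≤ (e + 2) (t + 1)`, this is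
at most `e * C * (e + 2) ^ (i + 1) * (t + 1) ^ (i + 1)`, so `hf V P' t ≤ C' (t + 1) ^ i` with
`C' = e * C * (e + 2) ^ (i + 1)` (use this `C'` instead of the one above).  Apply the induction hypothesis to `P'`.

`rob_main`: `claim d` with `C = 1`, `P = univ`, using `hf_le`; `Vs p` contains `1` by `u`, and separates the points:
if `f i = f j` for all `f ∈ Vs p` then `p i = p j`; but `p` is injective.
-/

namespace Pool.Agent.DSV

theorem rob_step (e i : ℕ) : ∀ C : ℕ, ∃ T A : ℕ, ∀ {ι : Type} [Fintype ι] [DecidableEq ι]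
    (V : Submodule ℝ (ι → ℝ)), (1 : ι → ℝ) ∈ V → (∀ i j : ι, i ≠ j → ∃ f ∈ V, f i ≠ f j) →
    ∀ (P : Finset ι) (ε : ℝ), 0 < ε → ε ≤ 1 → (∀ t ≤ T, hf V P t ≤ C * (t + 1) ^ i) →
      (A : ℝ) * ε⁻¹ ^ i ≤ P.card →
      ∃ Q : Finset ι, Q ⊆ P ∧ ε⁻¹ ≤ Q.card ∧ Rob ((V ^ e : Submodule ℝ (ι → ℝ)) : Set (ι → ℝ)) Q ε := by
  induction i with
  | zero =>
    intro C
    refine ⟨C, C + 1, ?_⟩
    intro ι _ _ V h1 hs P ε hε hε1 hP hA
    exfalso
    have h2 := hP C le_rfl
    rw [pow_zero, mul_one] at h2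
    have h3 := hf_card h1 hs P C h2
    rw [pow_zero, mul_one] at hA
    have h4 : C + 1 ≤ P.card := by exact_mod_cast hA
    omega
  | succ i ih =>
    intro C
    obtain ⟨T', A', hIH⟩ := ih (e * C * (e + 2) ^ (i + 1))
    refine ⟨2 * T' + 1 + 2 * e, 2 ^ (C * (2 * T' + 1 + 2 * e + 1) ^ (i + 1)) * (A' + 1), ?_⟩
    intro ι _ _ V h1 hs P ε hε hε1 hP hA
    set T := 2 * T' + 1 + 2 * e with hT
    set N := C * (T + 1) ^ (i + 1) with hN
    have hεi : 1 ≤ ε⁻¹ := (one_le_inv₀ hε).2 hε1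
    have hpos : (0 : ℝ) < ε⁻¹ := by positivity
    have hAP : ((2 ^ N * (A' + 1) : ℕ) : ℝ) * ε⁻¹ ^ (i + 1) ≤ P.card := hA
    have hPc : 0 < P.card := by
      have h2 : (0 : ℝ) < P.card := lt_of_lt_of_le (by positivity) hAP
      exact_mod_cast h2
    obtain ⟨Q, hQP, hQne, hQc, hQ⟩ := exists_prime (V ^ T) P (Finset.card_pos.1 hPc)
    have hfin : Module.finrank ℝ ((V ^ T).map (rs P)) ≤ N := hP T le_rfl
    have hQc2 : (P.card : ℝ) ≤ 2 ^ N * Q.card := by
      have h2 : P.card ≤ 2 ^ N * Q.card :=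
        hQc.trans (Nat.mul_le_mul_right _ (Nat.pow_le_pow_right (by norm_num) hfin))
      exact_mod_cast h2
    have hQc3 : ((A' : ℝ) + 1) * ε⁻¹ ^ (i + 1) ≤ Q.card := by
      have h2 : (2 : ℝ) ^ N * (((A' : ℝ) + 1) * ε⁻¹ ^ (i + 1)) ≤ 2 ^ N * Q.card := by
        have h3 := hAP.trans hQc2
        push_cast at h3
        linarith
      exact le_of_mul_le_mul_left h2 (by positivity)
    have hQc4 : ε⁻¹ ≤ Q.card := by
      refine le_trans ?_ hQc3
      have h2 : ε⁻¹ ≤ ε⁻¹ ^ (i + 1) := le_self_pow₀ hεi (by omega)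
      have h3 : (0 : ℝ) ≤ A' * ε⁻¹ ^ (i + 1) := by positivity
      nlinarith
    by_cases hR : Rob ((V ^ e : Submodule ℝ (ι → ℝ)) : Set (ι → ℝ)) Q ε
    · exact ⟨Q, hQP, hQc4, hR⟩
    · unfold Rob at hR
      push Not at hR
      obtain ⟨g, hg, ⟨q0, hq0, hgq0⟩, hgc⟩ := hR
      set P' := Q.filter fun q => g q = 0 with hP'
      have hgT : g ∈ V ^ T := pow_mono h1 (by omega) hg
      have hg2 : ¬ Q.card ≤ 2 * P'.card := by
        intro h2
        exact hgq0 (hQ g hgT h2 q0 hq0)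
      have key : ∀ t ≤ T', hf V P' t ≤ e * C * (e + 2) ^ (i + 1) * (t + 1) ^ i := by
        intro t ht
        have hmono : Monotone (hf V Q) := fun a b hab => hf_mono h1 Q hab
        have htel := telescope (hf V Q) hmono (hf V P' t) e (t + e) (t + 1) (by omega) (by
          intro s hs1 hs2
          have h2 := hf_drop (V := V) (e := e) (t := s) (by omega) (Q := Q) (p := g) hg (by
            intro h hh hgh
            have hhT : h ∈ V ^ T := pow_mono h1 (by omega) hh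
            apply hQ h hhT
            have h3 : Q ⊆ P' ∪ Q.filter fun q => h q = 0 := by
              intro q hq
              rcases mul_eq_zero.1 (hgh q hq) with h4 | h4
              · exact Finset.mem_union_left _ (Finset.mem_filter.2 ⟨hq, h4⟩)
              · exact Finset.mem_union_right _ (Finset.mem_filter.2 ⟨hq, h4⟩)
            have h5 := (Finset.card_le_card h3).trans (Finset.card_union_le _ _)
            omega)
          have h3 : hf V P' t ≤ hf V P' s := hf_mono h1 P' (by omega)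
          exact (Nat.add_le_add_right h3 _).trans h2)
        have h4 : hf V Q (t + e + (t + 1)) ≤ C * ((e + 2) * (t + 1)) ^ (i + 1) := by
          refine (hf_sub V hQP _).trans ((hP _ (by omega)).trans ?_)
          refine Nat.mul_le_mul_left _ (Nat.pow_le_pow_left ?_ _)
          nlinarith
        have h5 : (t + 1) * hf V P' t ≤ (t + 1) * (e * C * (e + 2) ^ (i + 1) * (t + 1) ^ i) := by
          calc (t + 1) * hf V P' t ≤ e * hf V Q (t + e + (t + 1)) := htel
            _ ≤ e * (C * ((e + 2) * (t + 1)) ^ (i + 1)) := Nat.mul_le_mul_left _ h4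
            _ = _ := by rw [mul_pow, pow_succ (t + 1) i]; ring
        exact Nat.le_of_mul_le_mul_left h5 (by omega)
      have hA' : (A' : ℝ) * ε⁻¹ ^ i ≤ P'.card := by
        have h2 : ε * (((A' : ℝ) + 1) * ε⁻¹ ^ (i + 1)) ≤ ε * Q.card :=
          mul_le_mul_of_nonneg_left hQc3 hε.le
        have h3 : ε * (((A' : ℝ) + 1) * ε⁻¹ ^ (i + 1)) = ((A' : ℝ) + 1) * ε⁻¹ ^ i := by
          rw [pow_succ]
          field_simp
        have h4 : (0 : ℝ) ≤ ε⁻¹ ^ i := by positivity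
        rw [h3] at h2
        nlinarith
      obtain ⟨Q', hQ'1, hQ'2, hQ'3⟩ := hIH V h1 hs P' ε hε hε1 key hA'
      exact ⟨Q', hQ'1.trans ((Finset.filter_subset _ _).trans hQP), hQ'2, hQ'3⟩

theorem rob_main (d e : ℕ) : ∃ A : ℕ, 0 < A ∧ ∀ (n : ℕ) (p : Fin n → Fin (d + 1) → ℝ)
    (u : Fin (d + 1) → ℝ), (∀ i, ∑ j, u j * p i j = 1) → Function.Injective p →
    ∀ ε : ℝ, 0 < ε → ε ≤ 1 → (A : ℝ) * ε⁻¹ ^ d ≤ n →
      ∃ Q : Finset (Fin n), ε⁻¹ ≤ Q.card ∧
        Rob ((Vs p ^ e : Submodule ℝ (Fin n → ℝ)) : Set (Fin n → ℝ)) Q ε := by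
  obtain ⟨T, A, h⟩ := rob_step e d 1
  refine ⟨A + 1, Nat.succ_pos _, ?_⟩
  intro n p u hu hp ε hε hε1 hA
  have hmem : ∀ j, (fun i => p i j) ∈ Vs p := fun j => Submodule.subset_span ⟨j, rfl⟩
  have h1 : (1 : Fin n → ℝ) ∈ Vs p := by
    have h2 : (1 : Fin n → ℝ) = ∑ j, u j • (fun i => p i j) := by
      funext i
      rw [Finset.sum_apply]
      simpa using (hu i).symm
    rw [h2]
    exact Submodule.sum_mem _ fun j _ => Submodule.smul_mem _ _ (hmem j)
  have hs : ∀ i j : Fin n, i ≠ j → ∃ f ∈ Vs p, f i ≠ f j := by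
    intro i j hij
    by_contra hcon
    push Not at hcon
    exact hij (hp (funext fun k => hcon _ (hmem k)))
  obtain ⟨Q, -, hQ1, hQ2⟩ := h (Vs p) h1 hs Finset.univ ε hε hε1 (by
    intro t _
    rw [one_mul]
    exact hf_le p u hu _ t) (by
    rw [Finset.card_univ, Fintype.card_fin]
    have h3 : (0 : ℝ) ≤ ε⁻¹ ^ d := by positivity
    push_cast at hA
    nlinarith)
  exact ⟨Q, hQ1, hQ2⟩

end Pool.Agent.DSV
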