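import Pool.Agent.DSV.Del
import Pool.Agent.DSV.RobL

/-!
# DSV, module Low: the lower bound for one family

PROOF.  Let `A` be the number of `rob_main d (2 d)`, `n ≥ 1`.  Put `ε = (A / n) ^ (1 / d)`, so `A ε⁻¹ ^ d = n`, and
`K = ⌊(2 (4 d + 5) ε) ^ (-1 / (2 d + 1))⌋`.  If `n` is at least a constant `n0` then `ε ≤ 1 / (10 (d + 1))`, `rob_main` gives
`Q` (`p` is injective: for `i ≠ j` and `d ≥ 2`, `n ≥ d + 1`, `Good` shows that `p i ≠ p j`: complete to an injective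
`t : Fin (d + 1) → Fin n`, a matrix with two equal rows has determinant `0`), `del` gives `S` with
`S.card ≥ K / 2 ≥ c n ^ (1 / (d (2 d + 1)))`.  A subset of `S` also has distinct volumes.  For `n < n0`, a one element
subfamily will do.
-/

namespace Pool.Agent.DSV

private theorem good_inj {n d : ℕ} (hd : 1 ≤ d) (p : Fin n → Fin (d + 1) → ℝ) (hp : Good p) (hn : d + 1 ≤ n) :
    Function.Injective p := by
  intro i j hij
  by_contra hne
  have h1 : ({i, j} : Finset (Fin n)).card ≤ d + 1 := by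
    rw [Finset.card_pair hne]; omega
  obtain ⟨T, hT1, hT2⟩ := Finset.exists_superset_card_eq h1 (by simpa using hn)
  have hi : i ∈ T := hT1 (by simp)
  have hj : j ∈ T := hT1 (by simp)
  have hr : Set.range (T.orderEmbOfFin hT2) = T := Finset.range_orderEmbOfFin T hT2
  obtain ⟨a, ha⟩ : i ∈ Set.range (T.orderEmbOfFin hT2) := by rw [hr]; exact hi
  obtain ⟨b, hb⟩ : j ∈ Set.range (T.orderEmbOfFin hT2) := by rw [hr]; exact hj
  have hab : a ≠ b := by
    rintro rfl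
    exact hne (ha.symm.trans hb)
  refine hp.1 (T.orderEmbOfFin hT2) (T.orderEmbOfFin hT2).injective ?_
  apply Matrix.det_zero_of_row_eq hab
  change p (T.orderEmbOfFin hT2 a) = p (T.orderEmbOfFin hT2 b)
  rw [ha, hb, hij]

private theorem dist_one {n d : ℕ} (hd : 1 ≤ d) (H : Fin n → Set (Fin d → ℝ)) (i : Fin n) :
    DistinctVol H {i} := by
  intro A B hA _ hAc _ _
  exfalso
  have h1 := Finset.card_le_card hA
  rw [hAc, Finset.card_singleton] at h1
  omega

theorem low_family (d : ℕ) (hd : 2 ≤ d) : ∃ c : ℝ, 0 < c ∧ ∀ n : ℕ, 1 ≤ n →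
    ∀ H : Fin n → Set (Fin d → ℝ), GenPos H →
      ∃ S : Finset (Fin n), c * (n : ℝ) ^ (1 / (d * (2 * d + 1)) : ℝ) ≤ S.card ∧
        DistinctVol H S := by
  obtain ⟨A, hA, hrob⟩ := rob_main d (2 * d)
  set θ : ℝ := (1 / (d * (2 * d + 1)) : ℝ) with hθ
  have hd0 : (2 : ℝ) ≤ d := by exact_mod_cast hd
  have hA0 : (1 : ℝ) ≤ A := by exact_mod_cast hA
  have hAθ : 0 < (A : ℝ) ^ θ := Real.rpow_pos_of_pos (by linarith) θ
  have hc0 : 0 < 8 * (4 * (d : ℝ) + 5) * (A : ℝ) ^ θ := by positivity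
  refine ⟨1 / (8 * (4 * d + 5) * (A : ℝ) ^ θ), by positivity, ?_⟩
  intro n hn H hH
  have hn0 : (1 : ℝ) ≤ n := by exact_mod_cast hn
  set y : ℝ := ((n : ℝ) / A) ^ θ with hy
  have hnA : 0 < (n : ℝ) / A := by positivity
  have hy0 : 0 < y := Real.rpow_pos_of_pos hnA θ
  have hyn : (n : ℝ) ^ θ = y * (A : ℝ) ^ θ := by
    rw [hy, ← Real.mul_rpow (by positivity) (by positivity)]
    congr 1
    field_simp
  have hypow : y ^ (d * (2 * d + 1)) = (n : ℝ) / A := by
    rw [hy, ← Real.rpow_natCast, ← Real.rpow_mul hnA.le, hθ]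
    have : (1 / (d * (2 * d + 1)) : ℝ) * ((d * (2 * d + 1) : ℕ) : ℝ) = 1 := by
      push_cast
      field_simp
    rw [this, Real.rpow_one]
  by_cases hbig : 10 * ((d : ℝ) + 1) ≤ y
  · have hy1 : 1 ≤ y := by linarith
    have hnA2 : 10 * ((d : ℝ) + 1) ≤ (n : ℝ) / A := by
      rw [← hypow]
      refine hbig.trans (le_self_pow₀ hy1 (by positivity))
    have hn2 : 10 * ((d : ℝ) + 1) ≤ n := by
      refine hnA2.trans ?_
      rw [div_le_iff₀ (by linarith)]
      nlinarith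
    have hn3 : d + 1 ≤ n := by
      have : ((d + 1 : ℕ) : ℝ) ≤ n := by push_cast; linarith
      exact_mod_cast this
    obtain ⟨p, hp, hHp, u, hu⟩ := exists_good H hH
    have hpi := good_inj (by omega) p hp hn3
    have hYpos : 0 < y ^ (2 * d + 1) := by positivity
    have hYbig : 10 * ((d : ℝ) + 1) ≤ y ^ (2 * d + 1) := hbig.trans (le_self_pow₀ hy1 (by positivity))
    have hε1 : (y ^ (2 * d + 1))⁻¹ ≤ 1 := by
      apply inv_le_one_of_one_le₀
      linarith
    have hAn : (A : ℝ) * ((y ^ (2 * d + 1))⁻¹)⁻¹ ^ d ≤ n := by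
      rw [inv_inv, ← pow_mul, mul_comm (2 * d + 1) d, hypow]
      apply le_of_eq
      field_simp
    obtain ⟨Q, hQ1, hQ2⟩ := hrob n p u hu hpi (y ^ (2 * d + 1))⁻¹ (by positivity) hε1 hAn
    have hQ3 : 10 * (d + 1) ≤ Q.card := by
      have : ((10 * (d + 1) : ℕ) : ℝ) ≤ Q.card := by
        rw [inv_inv] at hQ1
        push_cast
        linarith
      exact_mod_cast this
    have hε8 : (y ^ (2 * d + 1))⁻¹ ≤ 1 / 8 := by
      rw [one_div]
      apply inv_anti₀ (by norm_num)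
      linarith
    have hK0 : ((⌊y / (2 * (4 * d + 5))⌋₊ : ℕ) : ℝ) ≤ y / (2 * (4 * d + 5)) := Nat.floor_le (by positivity)
    have hK1 : y / (2 * (4 * d + 5)) / 2 ≤ ((⌊y / (2 * (4 * d + 5))⌋₊ : ℕ) : ℝ) := by
      have h1 : 1 ≤ y / (2 * (4 * (d : ℝ) + 5)) := by
        rw [le_div_iff₀ (by positivity)]
        linarith
      have h2 : (1 : ℝ) ≤ ((⌊y / (2 * (4 * d + 5))⌋₊ : ℕ) : ℝ) := by
        have : 1 ≤ ⌊y / (2 * (4 * (d : ℝ) + 5))⌋₊ := by
          apply Nat.le_floor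
          simpa using h1
        exact_mod_cast this
      have h3 := Nat.lt_floor_add_one (y / (2 * (4 * (d : ℝ) + 5)))
      linarith
    set K := ⌊y / (2 * (4 * (d : ℝ) + 5))⌋₊ with hK
    have hKK : (K : ℝ) ^ (2 * d + 1) * (4 * d + 5) * (y ^ (2 * d + 1))⁻¹ ≤ 1 / 2 := by
      have h1 : (K : ℝ) ^ (2 * d + 1) ≤ (y / (2 * (4 * d + 5))) ^ (2 * d + 1) :=
        pow_le_pow_left₀ (by positivity) hK0 _
      rw [div_pow] at h1
      have h2 : 2 * (4 * (d : ℝ) + 5) ≤ (2 * (4 * (d : ℝ) + 5)) ^ (2 * d + 1) :=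
        le_self_pow₀ (by linarith) (by positivity)
      have h3 : (K : ℝ) ^ (2 * d + 1) ≤ y ^ (2 * d + 1) / (2 * (4 * d + 5)) :=
        h1.trans (div_le_div_of_nonneg_left hYpos.le (by positivity) h2)
      rw [← div_eq_mul_inv, div_le_iff₀ hYpos]
      have h4 : (K : ℝ) ^ (2 * d + 1) * (2 * (4 * d + 5)) ≤ y ^ (2 * d + 1) := by
        rwa [le_div_iff₀ (by positivity)] at h3
      linarith
    obtain ⟨S, hS1, hS2⟩ := del hd p hp u hu Q hQ3 (y ^ (2 * d + 1))⁻¹ (by positivity) hε8 hQ2 hQ1 K hKK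
    refine ⟨S, ?_, ?_⟩
    · refine le_trans ?_ hS1
      rw [hyn]
      have : 1 / (8 * (4 * (d : ℝ) + 5) * (A : ℝ) ^ θ) * (y * (A : ℝ) ^ θ) = y / (2 * (4 * d + 5)) / 2 / 2 := by
        field_simp
        ring
      rw [this]
      linarith
    · have : H = fun i => Hyp (p i) := funext hHp
      rw [this]
      exact hS2
  · push Not at hbig
    refine ⟨{⟨0, hn⟩}, ?_, dist_one (by omega) H _⟩
    rw [Finset.card_singleton, hyn, Nat.cast_one, one_div_mul_eq_div, div_le_one hc0]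
    apply mul_le_mul_of_nonneg_right _ hAθ.le
    linarith

end Pool.Agent.DSV
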