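import Pool.Agent.DSV.Sim

/-!
# DSV, module NonA: if the polynomial `Fs` vanishes identically on `Q` then all volumes are equal

PROOF.  Let `i0` be an index with `a i0 ∉ Set.range b`.  `non_swap`: let `t : Fin (d + 1) → Fin n` be injective with values
in `Q`, `q ∈ Q` not in the range of `t`.  Choose `w : Fin (d + 1) → Fin n` injective with values in `Q` outside of
`range t ∪ {q}` (`Q` has at least `2 (d + 1) + 1` elements).  Put `x = Function.extend a t (Function.extend b w fun _ => q)`
and `x' = Function.extend a (Function.update t i0 q) (Function.extend b w fun _ => q)`.  Then `x (a i) = t i`,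
`x' (a i) = update t i0 q i`, `x (b i) = x' (b i)` for all `i` (if `b i = a k` then `k ≠ i0`, and both are `t k`; otherwise
both are `w i`), and `x ∘ b` is injective.  `Fs s (..) (..) = 0` at `x` and `x'` gives, by `vr_iff`,
`vr (Mt p t) = vr (Mt p (x ∘ b)) = vr (Mt p (x' ∘ b)) = vr (Mt p (update t i0 q))`.
`non_swap'`: the same for every position `i` instead of `i0`: compose with the transposition `Equiv.swap i i0`
(`vr_image`: `vr` does not depend on the order).
`non_const`: (what is needed later) if `t, t'` are injective with values in `Q` and agree outside of the positions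
`0` and `1`, then `vr (Mt p t) = vr (Mt p t')`: choose `q ∈ Q` outside of the ranges of `t` and `t'` and pass by
`update (update t 0 q) ..` in a few steps (each step replaces one entry by a value which does not occur in the tuple),
or more generally: `vr` is constant on all injective tuples with values in `Q` (induction on the number of positions
`i` where `t i ≠ t' i`, through tuples with fresh values: replace first all values of `t` by fresh ones outside of the
ranges of `t` and `t'`, one position after the other, then by those of `t'`; `Q` has at least `3 (d + 1)` elements).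
-/

namespace Pool.Agent.DSV

private theorem nonA_fresh {n m : ℕ} (R : Finset (Fin n)) (h : m ≤ R.card) :
    ∃ w : Fin m → Fin n, Function.Injective w ∧ ∀ i, w i ∈ R :=
  ⟨fun i => R.orderEmbOfCardLe h i, (R.orderEmbOfCardLe h).injective,
    fun i => R.orderEmbOfCardLe_mem h i⟩

private theorem nonA_upd {α β : Type*} [DecidableEq α] {t : α → β} (ht : Function.Injective t)
    {i : α} {q : β} (hq : ∀ j, t j ≠ q) : Function.Injective (Function.update t i q) := by
  intro j j' h
  by_cases h1 : j = i
  · by_cases h2 : j' = i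
    · rw [h1, h2]
    · rw [h1, Function.update_self, Function.update_of_ne h2] at h
      exact absurd h.symm (hq j')
  · by_cases h2 : j' = i
    · rw [h2, Function.update_self, Function.update_of_ne h1] at h
      exact absurd h (hq j)
    · rw [Function.update_of_ne h1, Function.update_of_ne h2] at h
      exact ht h

private theorem nonA_swap {n d : ℕ} {κ : Type*} (p : Fin n → Fin (d + 1) → ℝ)
    (hp : Good p) (Q : Finset (Fin n)) (hQ : 3 * (d + 1) + 1 ≤ Q.card) (s : ℝ)
    (hs : s = 1 ∨ s = -1) (a b : Fin (d + 1) → κ) (ha : Function.Injective a)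
    (hb : Function.Injective b) {i0 : Fin (d + 1)} (hi0 : a i0 ∉ Set.range b)
    (h0 : ∀ x : κ → Fin n, (∀ j, x j ∈ Q) →
      Fs s (Mt p fun i => x (a i)) (Mt p fun i => x (b i)) = 0)
    {t : Fin (d + 1) → Fin n} (ht : Function.Injective t) (htQ : ∀ i, t i ∈ Q) {q : Fin n}
    (hq : q ∈ Q) (hqt : ∀ j, t j ≠ q) :
    vr (Mt p t) = vr (Mt p (Function.update t i0 q)) := by
  have hc : d + 1 ≤ (Q \ insert q (Finset.univ.image t)).card := by
    have h1 := Finset.le_card_sdiff (insert q (Finset.univ.image t)) Q
    have h2 : (insert q (Finset.univ.image t)).card ≤ (d + 1) + 1 := by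
      refine (Finset.card_insert_le _ _).trans (Nat.succ_le_succ ?_)
      refine Finset.card_image_le.trans (le_of_eq ?_)
      rw [Finset.card_univ, Fintype.card_fin]
    omega
  obtain ⟨w, hw, hwR⟩ := nonA_fresh _ hc
  have hwQ : ∀ i, w i ∈ Q := fun i => (Finset.mem_sdiff.1 (hwR i)).1
  have hwq : ∀ i, w i ≠ q := fun i h1 =>
    (Finset.mem_sdiff.1 (hwR i)).2 (h1 ▸ Finset.mem_insert_self _ _)
  have hwt : ∀ i j, t j ≠ w i := fun i j h1 =>
    (Finset.mem_sdiff.1 (hwR i)).2 (h1 ▸ Finset.mem_insert_of_mem
      (Finset.mem_image_of_mem t (Finset.mem_univ j)))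
  have key : ∀ t0 : Fin (d + 1) → Fin n, Function.Injective t0 → (∀ i, t0 i ∈ Q) →
      (∀ i j, t0 j ≠ w i) → vr (Mt p t0) =
        vr (Mt p fun i => Function.extend a t0 (Function.extend b w fun _ => q) (b i)) := by
    intro t0 h1 h2 h3
    have hxa : ∀ i, Function.extend a t0 (Function.extend b w fun _ => q) (a i) = t0 i :=
      fun i => ha.extend_apply _ _ i
    have hxb : ∀ i, (¬ ∃ k, a k = b i) →
        Function.extend a t0 (Function.extend b w fun _ => q) (b i) = w i := by
      intro i hi
      rw [Function.extend_apply' _ _ _ hi, hb.extend_apply]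
    have hxQ : ∀ j, Function.extend a t0 (Function.extend b w fun _ => q) j ∈ Q := by
      intro j
      by_cases h4 : ∃ k, a k = j
      · obtain ⟨k, rfl⟩ := h4
        rw [hxa]
        exact h2 k
      · rw [Function.extend_apply' _ _ _ h4]
        by_cases h5 : ∃ k, b k = j
        · obtain ⟨k, rfl⟩ := h5
          rw [hb.extend_apply]
          exact hwQ k
        · rw [Function.extend_apply' _ _ _ h5]
          exact hq
    have hinj : Function.Injective
        (fun i => Function.extend a t0 (Function.extend b w fun _ => q) (b i)) := by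
      intro i i' h4
      by_cases h5 : ∃ k, a k = b i
      · obtain ⟨k, hk⟩ := h5
        by_cases h6 : ∃ k, a k = b i'
        · obtain ⟨k', hk'⟩ := h6
          simp only [← hk, ← hk', hxa] at h4
          have h7 := h1 h4
          rw [h7, hk'] at hk
          exact hb hk.symm
        · simp only [← hk, hxa, hxb i' h6] at h4
          exact absurd h4 (h3 i' k)
      · by_cases h6 : ∃ k, a k = b i'
        · obtain ⟨k', hk'⟩ := h6
          simp only [← hk', hxa, hxb i h5] at h4
          exact absurd h4.symm (h3 i k')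
        · simp only [hxb i h5, hxb i' h6] at h4
          exact hw h4
    have h8 := h0 _ hxQ
    simp only [hxa] at h8
    refine (vr_iff hp h1 hinj).2 ?_
    rcases hs with rfl | rfl
    · exact Or.inl h8
    · exact Or.inr h8
  have h9 := key t ht htQ hwt
  have h10 := key (Function.update t i0 q) (nonA_upd ht hqt) (fun i => by
      by_cases h1 : i = i0
      · rw [h1, Function.update_self]
        exact hq
      · rw [Function.update_of_ne h1]
        exact htQ i) (fun i j => by
      by_cases h1 : j = i0
      · rw [h1, Function.update_self]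
        exact (hwq i).symm
      · rw [Function.update_of_ne h1]
        exact hwt i j)
  rw [h9, h10]
  congr 2
  funext i
  by_cases h5 : ∃ k, a k = b i
  · obtain ⟨k, hk⟩ := h5
    have hki : k ≠ i0 := by
      rintro rfl
      exact hi0 ⟨i, hk.symm⟩
    rw [← hk, ha.extend_apply, ha.extend_apply, Function.update_of_ne hki]
  · rw [Function.extend_apply' _ _ _ h5, Function.extend_apply' _ _ _ h5]

private theorem nonA_swap' {n d : ℕ} {p : Fin n → Fin (d + 1) → ℝ}
    (hp : Good p) {Q : Finset (Fin n)} {i0 : Fin (d + 1)}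
    (h0 : ∀ t : Fin (d + 1) → Fin n, Function.Injective t → (∀ i, t i ∈ Q) → ∀ q ∈ Q,
      (∀ j, t j ≠ q) → vr (Mt p t) = vr (Mt p (Function.update t i0 q)))
    {t : Fin (d + 1) → Fin n} (ht : Function.Injective t) (htQ : ∀ i, t i ∈ Q) {q : Fin n}
    (hq : q ∈ Q) (hqt : ∀ j, t j ≠ q) (i : Fin (d + 1)) :
    vr (Mt p t) = vr (Mt p (Function.update t i q)) := by
  have him : ∀ f : Fin (d + 1) → Fin n, Finset.univ.image f =
      Finset.univ.image (f ∘ Equiv.swap i i0) := by
    intro f
    rw [← Finset.image_image, Finset.image_univ_equiv]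
  have h1 : Function.Injective (t ∘ Equiv.swap i i0) := ht.comp (Equiv.injective _)
  have h2 := vr_image p hp t (t ∘ Equiv.swap i i0) ht h1 (him t)
  have h3 := h0 (t ∘ Equiv.swap i i0) h1 (fun j => htQ _) q hq (fun j => hqt _)
  have h4 : Function.update t i q =
      Function.update (t ∘ Equiv.swap i i0) i0 q ∘ Equiv.swap i i0 := by
    funext j
    by_cases hj : j = i
    · rw [hj, Function.update_self, Function.comp_apply, Equiv.swap_apply_left,
        Function.update_self]
    · have h5 : Equiv.swap i i0 j ≠ i0 := by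
        intro h6
        exact hj ((Equiv.injective _ (h6.trans (Equiv.swap_apply_left i i0).symm)))
      rw [Function.update_of_ne hj, Function.comp_apply, Function.update_of_ne h5,
        Function.comp_apply, Equiv.swap_apply_self]
  have h6 : Function.Injective (Function.update (t ∘ Equiv.swap i i0) i0 q) :=
    nonA_upd h1 (fun j => hqt _)
  have h7 : Function.Injective (Function.update (t ∘ Equiv.swap i i0) i0 q ∘ Equiv.swap i i0) :=
    h6.comp (Equiv.injective _)
  rw [h2, h3, h4]
  exact vr_image p hp _ _ h6 h7 (him _)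

private theorem nonA_chain {n d : ℕ} {p : Fin n → Fin (d + 1) → ℝ} {Q : Finset (Fin n)}
    (h0 : ∀ t : Fin (d + 1) → Fin n, Function.Injective t → (∀ i, t i ∈ Q) → ∀ q ∈ Q,
      (∀ j, t j ≠ q) → ∀ i, vr (Mt p t) = vr (Mt p (Function.update t i q)))
    {t w : Fin (d + 1) → Fin n} (ht : Function.Injective t) (hw : Function.Injective w)
    (htQ : ∀ i, t i ∈ Q) (hwQ : ∀ i, w i ∈ Q) (htw : ∀ i j, t i ≠ w j) :
    vr (Mt p t) = vr (Mt p w) := by
  have hinj : ∀ m : ℕ, Function.Injective
      (fun j : Fin (d + 1) => if (j : ℕ) < m then w j else t j) := by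
    intro m j j' h
    simp only at h
    split_ifs at h with h1 h2 h2
    · exact hw h
    · exact absurd h.symm (htw _ _)
    · exact absurd h (htw _ _)
    · exact ht h
  have hmQ : ∀ (m : ℕ) (j : Fin (d + 1)), (if (j : ℕ) < m then w j else t j) ∈ Q := by
    intro m j
    split_ifs
    · exact hwQ j
    · exact htQ j
  have main : ∀ m : ℕ, m ≤ d + 1 → vr (Mt p t) =
      vr (Mt p fun j : Fin (d + 1) => if (j : ℕ) < m then w j else t j) := by
    intro m
    induction m with
    | zero =>
      intro _
      congr 2
    | succ m ih =>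
      intro hm
      have hm' : m < d + 1 := hm
      rw [ih hm'.le]
      have h1 := h0 _ (hinj m) (hmQ m) (w ⟨m, hm'⟩) (hwQ _) (fun j h2 => by
        split_ifs at h2 with h3
        · have h4 := hw h2
          rw [h4] at h3
          exact lt_irrefl _ h3
        · exact htw _ _ h2) ⟨m, hm'⟩
      rw [h1]
      congr 2
      funext j
      by_cases hj : j = ⟨m, hm'⟩
      · rw [hj, Function.update_self]
        simp
      · have hj' : (j : ℕ) ≠ m := fun h2 => hj (Fin.ext h2)
        rw [Function.update_of_ne hj]
        have h5 : (j : ℕ) < m ↔ (j : ℕ) < m + 1 := by omega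
        simp only [h5]
  rw [main (d + 1) le_rfl]
  congr 2
  funext j
  rw [if_pos j.2]

theorem non_const {n d : ℕ} {κ : Type*} [DecidableEq κ] (p : Fin n → Fin (d + 1) → ℝ)
    (hp : Good p) (Q : Finset (Fin n)) (hQ : 3 * (d + 1) + 1 ≤ Q.card) (s : ℝ)
    (hs : s = 1 ∨ s = -1) (a b : Fin (d + 1) → κ) (ha : Function.Injective a)
    (hb : Function.Injective b) (hab : Set.range a ≠ Set.range b)
    (h0 : ∀ x : κ → Fin n, (∀ j, x j ∈ Q) →
      Fs s (Mt p fun i => x (a i)) (Mt p fun i => x (b i)) = 0)
    (t t' : Fin (d + 1) → Fin n) (ht : Function.Injective t) (ht' : Function.Injective t')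
    (htQ : ∀ i, t i ∈ Q) (htQ' : ∀ i, t' i ∈ Q) : vr (Mt p t) = vr (Mt p t') := by
  obtain ⟨i0, hi0⟩ : ∃ i0, a i0 ∉ Set.range b := by
    by_contra hc
    push Not at hc
    have h1 : Finset.univ.image a ⊆ Finset.univ.image b := by
      intro y hy
      obtain ⟨i, _, rfl⟩ := Finset.mem_image.1 hy
      obtain ⟨j, hj⟩ := hc i
      exact Finset.mem_image.2 ⟨j, Finset.mem_univ _, hj⟩
    have h2 : Finset.univ.image a = Finset.univ.image b := by
      refine Finset.eq_of_subset_of_card_le h1 ?_
      rw [Finset.card_image_of_injective _ ha, Finset.card_image_of_injective _ hb]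
    refine hab ?_
    ext y
    have h3 := congrArg (fun F : Finset κ => y ∈ F) h2
    simp only [Finset.mem_image, Finset.mem_univ, true_and, eq_iff_iff] at h3
    exact h3
  have h1 : ∀ t : Fin (d + 1) → Fin n, Function.Injective t → (∀ i, t i ∈ Q) → ∀ q ∈ Q,
      (∀ j, t j ≠ q) → vr (Mt p t) = vr (Mt p (Function.update t i0 q)) :=
    fun t ht htQ q hq hqt => nonA_swap p hp Q hQ s hs a b ha hb hi0 h0 ht htQ hq hqt
  have h2 : ∀ t : Fin (d + 1) → Fin n, Function.Injective t → (∀ i, t i ∈ Q) → ∀ q ∈ Q,
      (∀ j, t j ≠ q) → ∀ i, vr (Mt p t) = vr (Mt p (Function.update t i q)) :=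
    fun t ht htQ q hq hqt i => nonA_swap' hp h1 ht htQ hq hqt i
  have hc : d + 1 ≤ (Q \ (Finset.univ.image t ∪ Finset.univ.image t')).card := by
    have h3 := Finset.le_card_sdiff (Finset.univ.image t ∪ Finset.univ.image t') Q
    have h4 : (Finset.univ.image t ∪ Finset.univ.image t').card ≤ (d + 1) + (d + 1) := by
      refine (Finset.card_union_le _ _).trans (Nat.add_le_add ?_ ?_)
      · refine Finset.card_image_le.trans (le_of_eq ?_)
        rw [Finset.card_univ, Fintype.card_fin]
      · refine Finset.card_image_le.trans (le_of_eq ?_)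
        rw [Finset.card_univ, Fintype.card_fin]
    omega
  obtain ⟨w, hw, hwR⟩ := nonA_fresh _ hc
  have hwQ : ∀ i, w i ∈ Q := fun i => (Finset.mem_sdiff.1 (hwR i)).1
  have hwt : ∀ i j, t i ≠ w j := fun i j h3 =>
    (Finset.mem_sdiff.1 (hwR j)).2 (h3 ▸ Finset.mem_union_left _
      (Finset.mem_image_of_mem t (Finset.mem_univ i)))
  have hwt' : ∀ i j, t' i ≠ w j := fun i j h3 =>
    (Finset.mem_sdiff.1 (hwR j)).2 (h3 ▸ Finset.mem_union_right _
      (Finset.mem_image_of_mem t' (Finset.mem_univ i)))
  rw [nonA_chain h2 ht hw htQ hwQ hwt, nonA_chain h2 ht' hw htQ' hwQ hwt']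

end Pool.Agent.DSV
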