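import Pool.Agent.DSV.Defs

/-!
# DSV, module Std: the standard simplex has positive finite volume

PROOF.  `kap_lt_top`: the convex hull of a finite set is bounded (`isBounded_convexHull`,
`Set.Finite.isBounded`) and a bounded set has finite measure (`Bornology.IsBounded.measure_lt_top`).
`kap_pos`: the convex hull contains the open nonempty set `{x | (∀ i, 0 < x i) ∧ ∑ i, x i < 1}`
(such an `x` is the convex combination with weights `1 - ∑ x i` at `0` and `x i` at `e i`); it contains
the point `x i = 1 / (d + 1)`; so its measure is positive (`IsOpen.measure_pos`).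
-/

namespace Pool.Agent.DSV

open MeasureTheory

theorem kap_lt_top (d : ℕ) : kap d < ⊤ := by
  unfold kap
  have h1 : Bornology.IsBounded
      (insert (0 : Fin d → ℝ) (Set.range fun i : Fin d => Pi.single i (1 : ℝ))) :=
    ((Set.finite_range _).insert 0).isBounded
  exact (isBounded_convexHull.2 h1).measure_lt_top

theorem kap_pos (d : ℕ) : 0 < kap d := by
  unfold kap
  set U : Set (Fin d → ℝ) := {x | (∀ i, 0 < x i) ∧ ∑ i, x i < 1} with hU
  have hsub : U ⊆ convexHull ℝ
      (insert (0 : Fin d → ℝ) (Set.range fun i : Fin d => Pi.single i (1 : ℝ))) := by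
    rintro x ⟨hx0, hx1⟩
    set S := insert (0 : Fin d → ℝ) (Set.range fun i : Fin d => Pi.single i (1 : ℝ)) with hS
    let z : Option (Fin d) → (Fin d → ℝ) := fun o => o.elim 0 (fun i => Pi.single i (1 : ℝ))
    let w : Option (Fin d) → ℝ := fun o => o.elim (1 - ∑ i, x i) (fun i => x i)
    have h := (convex_convexHull ℝ S).sum_mem (t := (Finset.univ : Finset (Option (Fin d))))
      (w := w) (z := z) (by
        rintro (_ | i) _
        · show 0 ≤ 1 - ∑ i, x i
          linarith
        · exact (hx0 i).le) (by
        rw [Fintype.sum_option]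
        show 1 - ∑ i, x i + ∑ i, x i = 1
        ring) (by
        rintro (_ | i) _
        · exact subset_convexHull ℝ S (Set.mem_insert _ _)
        · exact subset_convexHull ℝ S (Set.mem_insert_of_mem _ ⟨i, rfl⟩))
    have e : ∑ i, w i • z i = x := by
      rw [Fintype.sum_option]
      show (1 - ∑ i, x i) • (0 : Fin d → ℝ) + ∑ i, x i • (Pi.single i (1 : ℝ) : Fin d → ℝ) = x
      rw [smul_zero, zero_add]
      funext j
      rw [Finset.sum_apply]
      simp [Pi.single_apply]
    rwa [e] at h
  have hopen : IsOpen U := by
    have h1 : IsOpen {x : Fin d → ℝ | ∀ i, 0 < x i} := by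
      have : {x : Fin d → ℝ | ∀ i, 0 < x i} = ⋂ i, {x : Fin d → ℝ | 0 < x i} := by
        ext x
        simp
      rw [this]
      exact isOpen_iInter_of_finite fun i => isOpen_lt continuous_const (continuous_apply i)
    have h2 : IsOpen {x : Fin d → ℝ | ∑ i, x i < 1} :=
      isOpen_lt (continuous_finsetSum _ fun i _ => continuous_apply i) continuous_const
    exact h1.inter h2
  have hne : U.Nonempty := by
    refine ⟨fun _ => 1 / ((d : ℝ) + 1), fun i => by positivity, ?_⟩
    rw [Finset.sum_const, Finset.card_univ, Fintype.card_fin, nsmul_eq_mul, mul_one_div,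
      div_lt_one (by positivity)]
    linarith
  exact (hopen.measure_pos volume hne).trans_le (measure_mono hsub)

end Pool.Agent.DSV
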