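import Pool.Agent.DSV.Vol
import Pool.Agent.DSV.Std
import Pool.Agent.DSV.Gp

/-!
# DSV, module Sim: volumes of the simplices of a family in terms of `vr`

PROOF.  `vol_simplex`: for `T = univ.image t` with `t` injective, the set of vertices in the definition of
`simplex` is the one of `vol_eq` for `M = Mt p t` (`j ∈ T` iff `j = t j'`; `t i ≠ t j` iff `i ≠ j`); `det M ≠ 0` by
`Good`, and `dl M i ≠ 0` by the second part of `Good`, applied to `t ∘ i.succAbove`.
`vr_eq_of_vol`: cancel `kap d` (positive, finite) and `ENNReal.ofReal` (`vr ≥ 0`).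
`vr_image`: if two injective tuples have the same image, both sides are the same volume.
`vr_iff`: `vr A = vr B` iff `|det A| ^ d * ∏ |dl B i| = |det B| ^ d * ∏ |dl A i|` (`div_eq_div_iff`) iff the two
numbers `det A ^ d * ∏ dl B i` and `det B ^ d * ∏ dl A i` have equal absolute values (`abs_eq_abs`).
-/

namespace Pool.Agent.DSV

open MeasureTheory

theorem good_dl {ι : Type*} {d : ℕ} {p : ι → Fin (d + 1) → ℝ} (hp : Good p) {t : Fin (d + 1) → ι}
    (ht : Function.Injective t) (i : Fin (d + 1)) : dl (Mt p t) i ≠ 0 :=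
  hp.2 (t ∘ i.succAbove) (ht.comp Fin.succAbove_right_injective)

theorem vr_pos {ι : Type*} {d : ℕ} {p : ι → Fin (d + 1) → ℝ} (hp : Good p) {t : Fin (d + 1) → ι}
    (ht : Function.Injective t) : 0 < vr (Mt p t) :=
  div_pos (pow_pos (abs_pos.2 (hp.1 t ht)) _)
    (Finset.prod_pos fun i _ => abs_pos.2 (good_dl hp ht i))

theorem vol_simplex {d n : ℕ} (p : Fin n → Fin (d + 1) → ℝ) (hp : Good p)
    (t : Fin (d + 1) → Fin n) (ht : Function.Injective t) :
    volume (simplex (fun i => Hyp (p i)) (Finset.univ.image t)) =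
      ENNReal.ofReal (vr (Mt p t)) * kap d := by
  rw [← vol_eq (Mt p t) (hp.1 t ht) (good_dl hp ht)]
  unfold simplex
  congr 2
  ext x
  simp only [Set.mem_ofPred_eq]
  constructor
  · rintro ⟨j, hj, h⟩
    obtain ⟨j', -, rfl⟩ := Finset.mem_image.1 hj
    exact ⟨j', fun i hi => h (t i) (Finset.mem_image_of_mem t (Finset.mem_univ i))
      (fun hc => hi (ht hc))⟩
  · rintro ⟨j, h⟩
    refine ⟨t j, Finset.mem_image_of_mem t (Finset.mem_univ j), fun i hi hij => ?_⟩
    obtain ⟨i', -, rfl⟩ := Finset.mem_image.1 hi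
    exact h i' (fun hc => hij (by rw [hc]))

theorem vol_simplex_eq_iff {d n : ℕ} (p : Fin n → Fin (d + 1) → ℝ) (hp : Good p)
    (t s : Fin (d + 1) → Fin n) (ht : Function.Injective t) (hs : Function.Injective s) :
    volume (simplex (fun i => Hyp (p i)) (Finset.univ.image t)) =
      volume (simplex (fun i => Hyp (p i)) (Finset.univ.image s)) ↔ vr (Mt p t) = vr (Mt p s) := by
  rw [vol_simplex p hp t ht, vol_simplex p hp s hs,
    ENNReal.mul_left_inj (kap_pos d).ne' (kap_lt_top d).ne,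
    ENNReal.ofReal_eq_ofReal_iff (vr_pos hp ht).le (vr_pos hp hs).le]

theorem vr_image {d n : ℕ} (p : Fin n → Fin (d + 1) → ℝ) (hp : Good p)
    (t s : Fin (d + 1) → Fin n) (ht : Function.Injective t) (hs : Function.Injective s)
    (h : Finset.univ.image t = Finset.univ.image s) : vr (Mt p t) = vr (Mt p s) :=
  (vol_simplex_eq_iff p hp t s ht hs).1 (by rw [h])

theorem vr_iff {ι : Type*} {d : ℕ} {p : ι → Fin (d + 1) → ℝ} (hp : Good p)
    {t s : Fin (d + 1) → ι} (ht : Function.Injective t) (hs : Function.Injective s) :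
    vr (Mt p t) = vr (Mt p s) ↔ Fs 1 (Mt p t) (Mt p s) = 0 ∨ Fs (-1) (Mt p t) (Mt p s) = 0 := by
  have h1 : (∏ i, |dl (Mt p t) i|) ≠ 0 :=
    Finset.prod_ne_zero_iff.2 fun i _ => (abs_pos.2 (good_dl hp ht i)).ne'
  have h2 : (∏ i, |dl (Mt p s) i|) ≠ 0 :=
    Finset.prod_ne_zero_iff.2 fun i _ => (abs_pos.2 (good_dl hp hs i)).ne'
  unfold vr Fs
  rw [div_eq_div_iff h1 h2, ← abs_pow, ← abs_pow, ← Finset.abs_prod, ← Finset.abs_prod, ← abs_mul,
    ← abs_mul, abs_eq_abs, one_mul, sub_eq_zero, neg_one_mul, sub_neg_eq_add, add_eq_zero_iff_eq_neg]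

end Pool.Agent.DSV
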