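import Pool.Agent.DSV.Sim

/-!
# DSV, module UpV: the family of the moment curve

`pm x = (x ^ d, 1, x, ..., x ^ (d - 1))` (index `0` is the constant term).

PROOF.  `det_pm`: `|det (Mt pm t)|` is the absolute value of the Vandermonde determinant of the `x (t i)`: the columns
of `Mt` are those of `Matrix.vandermonde` with the last one moved to the front, a permutation of the columns
(`Matrix.det_permute'` with `finRotate`, or `Matrix.det_submatrix...`), so by `Matrix.det_vandermonde`
`|det| = ∏ i, ∏ j ∈ Ioi i, |y j - y i|`.  The normals `(1, x, ..., x ^ (d - 1))` of `d` vectors form exactly the Vandermonde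
matrix.  Hence `Good`; and if all `y i` are replaced by `s - y i` the absolute values of all the determinants stay the
same, so `vr` stays the same.
-/

namespace Pool.Agent.DSV

/-- the hyperplane with parameter `x` of the moment curve family -/
def pm (d : ℕ) (x : ℝ) : Fin (d + 1) → ℝ := Fin.cons (x ^ d) fun j : Fin d => x ^ (j : ℕ)

private theorem upV_van {m : ℕ} (y : Fin m → ℝ) :
    |(Matrix.vandermonde y).det| = ∏ i, ∏ j ∈ Finset.Ioi i, |y j - y i| := by
  rw [Matrix.det_vandermonde, Finset.abs_prod]
  refine Finset.prod_congr rfl fun i _ => ?_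
  rw [Finset.abs_prod]

private theorem upV_eq {d : ℕ} (y : Fin (d + 1) → ℝ) : (Matrix.of fun i => pm d (y i)) =
    (Matrix.vandermonde y).submatrix (Equiv.refl _) (finRotate (d + 1)).symm := by
  ext i j
  rw [Matrix.submatrix_apply, Matrix.vandermonde_apply, Matrix.of_apply]
  refine Fin.cases ?_ (fun j => ?_) j
  · have h : (finRotate (d + 1)).symm 0 = Fin.last d := by
      rw [Equiv.symm_apply_eq, finRotate_last]
    rw [h]
    simp [pm]
  · have h : (finRotate (d + 1)).symm (Fin.succ j) = Fin.castSucc j := by
      rw [Equiv.symm_apply_eq, finRotate_apply, Fin.coeSucc_eq_succ]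
    rw [h]
    simp [pm]

private theorem upV_dl {d : ℕ} (y : Fin (d + 1) → ℝ) (i : Fin (d + 1)) :
    dl (Matrix.of fun i => pm d (y i)) i =
      (Matrix.vandermonde fun k : Fin d => y (i.succAbove k)).det := by
  unfold dl
  congr 1

theorem det_pm {d : ℕ} (y : Fin (d + 1) → ℝ) :
    |(Matrix.of fun i => pm d (y i)).det| = ∏ i, ∏ j ∈ Finset.Ioi i, |y j - y i| := by
  rw [upV_eq, Matrix.abs_det_submatrix_equiv_equiv, upV_van]

theorem good_pm {ι : Type*} {d : ℕ} (y : ι → ℝ) (hy : Function.Injective y) :
    Good fun i => pm d (y i) := by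
  constructor
  · intro t ht
    have h := det_pm fun i => y (t i)
    have hpos : 0 < |(Matrix.of fun i => pm d (y (t i))).det| := by
      rw [h]
      refine Finset.prod_pos fun i _ => Finset.prod_pos fun j hj => ?_
      rw [abs_pos, sub_ne_zero]
      intro h0
      have := ht (hy h0)
      rw [Finset.mem_Ioi, this] at hj
      exact lt_irrefl _ hj
    exact abs_pos.1 hpos
  · intro t ht
    have h : (Matrix.of fun i j : Fin d => pm d (y (t i)) (Fin.succ j)) =
        Matrix.vandermonde fun i => y (t i) := by
      ext i j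
      simp [pm, Matrix.vandermonde_apply]
    show (Matrix.of fun i j : Fin d => pm d (y (t i)) (Fin.succ j)).det ≠ 0
    rw [h, Matrix.det_vandermonde_ne_zero_iff]
    exact hy.comp ht

theorem vr_pm_reflect {d : ℕ} (y : Fin (d + 1) → ℝ) (s : ℝ) :
    vr (Matrix.of fun i => pm d (s - y i)) = vr (Matrix.of fun i => pm d (y i)) := by
  have hsub : ∀ a b : ℝ, |(s - a) - (s - b)| = |a - b| := by
    intro a b
    rw [show (s - a) - (s - b) = -(a - b) by ring, abs_neg]
  unfold vr
  rw [det_pm, det_pm]
  congr 1
  · congr 1
    refine Finset.prod_congr rfl fun i _ => Finset.prod_congr rfl fun j _ => ?_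
    exact hsub _ _
  · refine Finset.prod_congr rfl fun i _ => ?_
    rw [upV_dl (fun i => s - y i), upV_dl y, upV_van, upV_van]
    refine Finset.prod_congr rfl fun k _ => Finset.prod_congr rfl fun j _ => ?_
    exact hsub _ _

end Pool.Agent.DSV
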