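import Pool.Agent.DSV.Defs

/-!
# DSV, module Vol: the volume of the simplex bounded by the hyperplanes given by the rows of `M`

PROOF.  The adjugate satisfies `M * adjugate M = det M • 1` and `(adjugate M) 0 i = (-1) ^ i * dl M i`
(`Matrix.adjugate_fin_succ_eq_det_submatrix`), which is nonzero.  Let `c i k = (adjugate M) k i` and
`v i : Fin d → ℝ`, `v i k = - c i (k + 1) / c i 0`.  For `j ≠ i`: `M j 0 * c i 0 + ∑ k, M j (k+1) * c i (k+1)
= 0`, so `∑ k, M j (k + 1) * v i k = M j 0`: `v i` lies on all the hyperplanes `j ≠ i`, and it is the only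
such point: the normals `M j (succ ·)`, `j ≠ i`, have determinant `dl M i ≠ 0`
(`Matrix.eq_zero_of_mulVec_eq_zero` applied to `M.submatrix i.succAbove Fin.succ` and the difference of two such
points).  So the set of vertices is `Set.range v`.

Let `L` be the linear map with the matrix whose columns are `v (i + 1) - v 0`.  The affine map
`x ↦ L x + v 0` sends `insert 0 (range e)` onto `range v`, so it sends the standard simplex onto the convex hull
of `range v` (`AffineMap.image_convexHull`, or `LinearMap.image_convexHull` and translation), and the volume is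
`ENNReal.ofReal |det L| * kap d` (`MeasureTheory.Measure.addHaar_image_linearMap`, `measure_preimage_add_right` or
`Measure.addHaar_image...` for the translation).  Finally `|det L| = vr M`: the matrix `N` with the columns
`(1, - v i)`, that is `N k i = c i k / c i 0`, is `adjugate M` times a diagonal matrix, so
`det N = det M ^ d / ∏ i, c i 0` (`Matrix.det_adjugate`, `Matrix.det_mul_diagonal` or `Matrix.det_mul_row`),
`|c i 0| = |dl M i|`; subtracting the first column of `N` from the others and expanding along the first row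
gives `det N = ± det L`.
-/

namespace Pool.Agent.DSV

open MeasureTheory

open scoped Pointwise

/-- the vertex opposite to the hyperplane `i` -/
private noncomputable def vx {d : ℕ} (M : Matrix (Fin (d + 1)) (Fin (d + 1)) ℝ) (i : Fin (d + 1)) :
    Fin d → ℝ := fun k => -(M.adjugate k.succ i / M.adjugate 0 i)

private theorem adj_zero {d : ℕ} (M : Matrix (Fin (d + 1)) (Fin (d + 1)) ℝ) (i : Fin (d + 1)) :
    M.adjugate 0 i = (-1) ^ (i : ℕ) * dl M i := by
  rw [Matrix.adjugate_fin_succ_eq_det_submatrix, Fin.succAbove_zero]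
  unfold dl
  simp

private theorem adj_ne {d : ℕ} (M : Matrix (Fin (d + 1)) (Fin (d + 1)) ℝ)
    (hdl : ∀ i, dl M i ≠ 0) (i : Fin (d + 1)) : M.adjugate 0 i ≠ 0 := by
  rw [adj_zero]
  exact mul_ne_zero (pow_ne_zero _ (by norm_num)) (hdl i)

private theorem vx_mem {d : ℕ} (M : Matrix (Fin (d + 1)) (Fin (d + 1)) ℝ)
    (hdl : ∀ i, dl M i ≠ 0) {i j : Fin (d + 1)} (hij : j ≠ i) : vx M i ∈ Hyp (M j) := by
  have h1 : (M * M.adjugate) j i = 0 := by
    rw [Matrix.mul_adjugate, Matrix.smul_apply, Matrix.one_apply_ne hij, smul_zero]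
  rw [Matrix.mul_apply, Fin.sum_univ_succ] at h1
  have h2 := adj_ne M hdl i
  change ∑ k, M j (Fin.succ k) * -(M.adjugate k.succ i / M.adjugate 0 i) = M j 0
  have h3 : ∑ k : Fin d, M j (Fin.succ k) * -(M.adjugate k.succ i / M.adjugate 0 i) =
      -(∑ k : Fin d, M j (Fin.succ k) * M.adjugate k.succ i) / M.adjugate 0 i := by
    rw [← Finset.sum_neg_distrib, Finset.sum_div]
    exact Finset.sum_congr rfl fun k _ => by ring
  rw [h3, div_eq_iff h2]
  linarith

private theorem verts {d : ℕ} (M : Matrix (Fin (d + 1)) (Fin (d + 1)) ℝ)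
    (hdl : ∀ i, dl M i ≠ 0) :
    {x : Fin d → ℝ | ∃ j : Fin (d + 1), ∀ i, i ≠ j → x ∈ Hyp (M i)} = Set.range (vx M) := by
  ext x
  constructor
  · rintro ⟨j, hj⟩
    refine ⟨j, ?_⟩
    have h1 : (M.submatrix j.succAbove Fin.succ).mulVec (vx M j - x) = 0 := by
      funext i
      have h2 := hj (j.succAbove i) (Fin.succAbove_ne j i)
      have h3 := vx_mem M hdl (Fin.succAbove_ne j i)
      change ∑ k, M (j.succAbove i) (Fin.succ k) * x k = M (j.succAbove i) 0 at h2
      change ∑ k, M (j.succAbove i) (Fin.succ k) * vx M j k = M (j.succAbove i) 0 at h3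
      change ∑ k, M (j.succAbove i) (Fin.succ k) * (vx M j k - x k) = 0
      simp only [mul_sub, Finset.sum_sub_distrib]
      rw [h2, h3, sub_self]
    have h4 := Matrix.eq_zero_of_mulVec_eq_zero (hdl j) h1
    exact sub_eq_zero.1 h4
  · rintro ⟨j, rfl⟩
    exact ⟨j, fun i hi => vx_mem M hdl hi⟩

private theorem det_L {d : ℕ} (M : Matrix (Fin (d + 1)) (Fin (d + 1)) ℝ)
    (hdl : ∀ i, dl M i ≠ 0) :
    |(Matrix.of fun k i : Fin d => vx M i.succ k - vx M 0 k).det| = vr M := by
  set N : Matrix (Fin (d + 1)) (Fin (d + 1)) ℝ :=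
    M.adjugate * Matrix.diagonal (fun i => (M.adjugate 0 i)⁻¹) with hN
  have hNij : ∀ k i, N k i = M.adjugate k i / M.adjugate 0 i := by
    intro k i
    rw [hN, Matrix.mul_diagonal, div_eq_mul_inv]
  have hN0 : ∀ i, N 0 i = 1 := fun i => by rw [hNij, div_self (adj_ne M hdl i)]
  have hNs : ∀ (k : Fin d) i, N k.succ i = - vx M i k := by
    intro k i
    rw [hNij]
    unfold vx
    ring
  have hdet : N.det = M.det ^ d * ∏ i, (M.adjugate 0 i)⁻¹ := by
    rw [hN, Matrix.det_mul, Matrix.det_adjugate, Matrix.det_diagonal, Fintype.card_fin,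
      Nat.add_sub_cancel]
  have habs : |N.det| = vr M := by
    rw [hdet, abs_mul, abs_pow, Finset.abs_prod]
    unfold vr
    rw [div_eq_mul_inv, ← Finset.prod_inv_distrib]
    congr 1
    refine Finset.prod_congr rfl fun i _ => ?_
    rw [abs_inv, adj_zero, abs_mul, abs_pow, abs_neg, abs_one, one_pow, one_mul]
  rw [← habs]
  set N' : Matrix (Fin (d + 1)) (Fin (d + 1)) ℝ :=
    Matrix.of fun k i => N k i + (if i = 0 then 0 else -1) * N k 0 with hN'
  have h1 : N'.det = N.det := by
    rw [← Matrix.det_transpose N', ← Matrix.det_transpose N]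
    exact Matrix.det_eq_of_forall_row_eq_smul_add_const (fun i => if i = 0 then 0 else -1) 0
      (by simp) (fun i j => rfl)
  have h2 : N'.det = (N'.submatrix Fin.succ Fin.succ).det := by
    rw [Matrix.det_succ_row_zero, Fin.sum_univ_succ]
    have h3 : ∀ i : Fin d, N' 0 i.succ = 0 := by
      intro i
      change N 0 i.succ + (if i.succ = 0 then 0 else -1) * N 0 0 = 0
      rw [if_neg (Fin.succ_ne_zero i), hN0, hN0]
      ring
    have h4 : N' 0 0 = 1 := by
      change N 0 0 + (if (0 : Fin (d + 1)) = 0 then 0 else -1) * N 0 0 = 1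
      rw [if_pos rfl, hN0]
      ring
    rw [Finset.sum_eq_zero (fun i _ => by rw [h3]; ring), h4, Fin.succAbove_zero]
    simp
  have h5 : N'.submatrix Fin.succ Fin.succ =
      -(Matrix.of fun k i : Fin d => vx M i.succ k - vx M 0 k) := by
    ext k i
    change N k.succ i.succ + (if i.succ = 0 then 0 else -1) * N k.succ 0 =
      -(vx M i.succ k - vx M 0 k)
    rw [if_neg (Fin.succ_ne_zero i), hNs, hNs]
    ring
  rw [← h1, h2, h5, Matrix.det_neg, abs_mul, abs_pow, abs_neg, abs_one, one_pow, one_mul]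

private theorem range_vx {d : ℕ} (M : Matrix (Fin (d + 1)) (Fin (d + 1)) ℝ) :
    Set.range (vx M) = vx M 0 +ᵥ ((Matrix.toLin'
      (Matrix.of fun k i : Fin d => vx M i.succ k - vx M 0 k)) ''
      (insert (0 : Fin d → ℝ) (Set.range fun i : Fin d => Pi.single i (1 : ℝ)))) := by
  have hs : ∀ i : Fin d, (Matrix.toLin'
      (Matrix.of fun k i : Fin d => vx M i.succ k - vx M 0 k)) (Pi.single i (1 : ℝ)) =
      vx M i.succ - vx M 0 := by
    intro i
    rw [Matrix.toLin'_apply, Matrix.mulVec_single_one]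
    rfl
  rw [Set.image_insert_eq, map_zero, ← Set.range_comp]
  ext x
  rw [Set.mem_vadd_set]
  constructor
  · rintro ⟨j, rfl⟩
    refine Fin.cases ?_ (fun i => ?_) j
    · exact ⟨0, Set.mem_insert _ _, by simp⟩
    · refine ⟨vx M i.succ - vx M 0, Set.mem_insert_of_mem _ ⟨i, hs i⟩, ?_⟩
      rw [vadd_eq_add, add_sub_cancel]
  · rintro ⟨y, hy, rfl⟩
    rcases hy with rfl | ⟨i, rfl⟩
    · exact ⟨0, by simp⟩
    · refine ⟨i.succ, ?_⟩
      rw [vadd_eq_add, Function.comp_apply, hs i, add_sub_cancel]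

theorem vol_eq {d : ℕ} (M : Matrix (Fin (d + 1)) (Fin (d + 1)) ℝ) (hM : M.det ≠ 0)
    (hdl : ∀ i, dl M i ≠ 0) :
    volume (convexHull ℝ {x : Fin d → ℝ | ∃ j : Fin (d + 1), ∀ i, i ≠ j → x ∈ Hyp (M i)}) =
      ENNReal.ofReal (vr M) * kap d := by
  rw [verts M hdl, range_vx, convexHull_vadd, MeasureTheory.measure_vadd,
    ← LinearMap.image_convexHull, Measure.addHaar_image_linearMap, LinearMap.det_toLin',
    det_L M hdl]
  rfl

end Pool.Agent.DSV
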